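import Pool.Agent.R829.FB.Fin

/-!
# Places over places
-/

namespace Pool.Agent.R829.FB

open Pool.Agent.TH951.W.UB Pool.Agent.TH951.W.UG Pool.Agent.TH951.W.UH Polynomial

universe u v w

section

variable {k : Type v} {L : Type u} [Field k] [Field L] [Algebra k L]

lemma absv_le_one (Q : PlaceData.{w} k L) (v₀ : Q.Pl) (x : L) :
    absv Q v₀ x ≤ 1 ↔ x ∈ VS Q v₀ := by
  by_cases hx : x = 0
  · subst hx
    rw [map_zero]
    exact ⟨fun _ => (VS Q v₀).zero_mem, fun _ => zero_le_one⟩
  · rw [absv_apply Q v₀ x hx, mem_VS Q v₀ x hx, Real.exp_le_one_iff, neg_nonpos]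
    exact_mod_cast Iff.rfl

/-- The number of places above a given place. -/
theorem card_over_le {K : Type*} [Field K] [Algebra K L] [FiniteDimensional K L]
    (Q : PlaceData.{w} k L) (hnt : ∀ v, ∃ y : L, y ≠ 0 ∧ Q.ord v y ≠ 0)
    (hine : ∀ v v' : Q.Pl, (∀ y : L, y ≠ 0 → (0 ≤ Q.ord v y ↔ 0 ≤ Q.ord v' y)) → v = v')
    (A : ValuationSubring K) (Z : Finset Q.Pl)
    (hZ : ∀ v ∈ Z, (VS Q v).comap (algebraMap K L) = A) : Z.card ≤ Module.finrank K L := by
  classical
  have h1 : ∀ i : {v // v ∈ Z}, (absv Q i.1).IsNontrivial := by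
    rintro ⟨v, _⟩
    obtain ⟨y, hy0, hy⟩ := hnt v
    refine ⟨y, hy0, ?_⟩
    rw [absv_apply Q v y hy0]
    intro h
    rw [Real.exp_eq_one_iff] at h
    apply hy
    have h2 : (Q.ord v y : ℝ) = 0 := by linarith
    exact_mod_cast h2
  have h2 : Pairwise fun i j : {v // v ∈ Z} => ¬ (absv Q i.1).IsEquiv (absv Q j.1) := by
    rintro ⟨v, hv⟩ ⟨v', hv'⟩ hne heq
    apply hne
    apply Subtype.ext
    apply hine
    intro y hy
    rw [← mem_VS Q v y hy, ← mem_VS Q v' y hy, ← absv_le_one, ← absv_le_one]
    exact heq.le_one_iff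
  have h3 := AbsoluteValue.exists_one_lt_lt_one_pi_of_not_isEquiv h1 h2
  choose a ha hb using h3
  have hnot : ∀ i : {v // v ∈ Z}, a i ∉ VS Q i.1 := by
    intro i h
    rw [← absv_le_one] at h
    exact absurd (ha i) (not_lt.mpr h)
  have hin : ∀ i j : {v // v ∈ Z}, j ≠ i → a i ∈ VS Q j.1 := by
    intro i j hij
    rw [← absv_le_one]
    exact (hb i j hij).le
  have hli : LinearIndependent K a := by
    rw [Fintype.linearIndependent_iff]
    intro g hg
    by_contra hcon
    push Not at hcon
    obtain ⟨i₁, hi₁⟩ := hcon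
    obtain ⟨i₀, _, hi₀⟩ := Finset.exists_max_image (Finset.univ : Finset {v // v ∈ Z})
      (fun i => A.valuation (g i)) ⟨i₁, Finset.mem_univ _⟩
    have hg0 : g i₀ ≠ 0 := by
      intro h0
      have h4 := hi₀ i₁ (Finset.mem_univ _)
      rw [h0, map_zero] at h4
      have h5 : A.valuation (g i₁) = 0 := le_antisymm h4 zero_le
      rw [map_eq_zero] at h5
      exact hi₁ h5
    apply hnot i₀
    have h6 : a i₀ = -∑ i ∈ Finset.univ.erase i₀, algebraMap K L (g i / g i₀) * a i := by
      have h7 : ∑ i ∈ Finset.univ.erase i₀, g i • a i + g i₀ • a i₀ = 0 := by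
        rw [Finset.sum_erase_add _ _ (Finset.mem_univ _)]
        exact hg
      have h8 : algebraMap K L (g i₀) ≠ 0 := (_root_.map_ne_zero _).mpr hg0
      have h9 : ∑ i ∈ Finset.univ.erase i₀, algebraMap K L (g i / g i₀) * a i =
          (algebraMap K L (g i₀))⁻¹ * ∑ i ∈ Finset.univ.erase i₀, g i • a i := by
        rw [Finset.mul_sum]
        apply Finset.sum_congr rfl
        intro i _
        rw [Algebra.smul_def, map_div₀, div_eq_mul_inv]
        ring
      rw [h9, eq_neg_of_add_eq_zero_left h7, Algebra.smul_def]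
      field_simp
    rw [h6]
    apply (VS Q i₀.1).neg_mem
    apply sum_mem
    intro i hi
    apply (VS Q i₀.1).mul_mem
    · have h10 : g i / g i₀ ∈ A := by
        rw [← ValuationSubring.valuation_le_one_iff, map_div₀]
        apply div_le_one_of_le₀ (hi₀ i (Finset.mem_univ _)) zero_le
      rw [← hZ i₀.1 i₀.2] at h10
      exact h10
    · exact hin i i₀ (Finset.ne_of_mem_erase hi).symm
  have h11 := hli.fintype_card_le_finrank
  rwa [Fintype.card_coe] at h11

end

/-- `L` is finite over the image of `k(t)`. -/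
lemma fin_ext (k K L : Type*) [Field k] [Field K]
    [Field L] [Algebra k K] [Algebra k L] [Algebra K L] [IsScalarTower k K L]
    (t : K) [FiniteDimensional (IntermediateField.adjoin k {t}) K]
    [FiniteDimensional K L] :
    FiniteDimensional (IntermediateField.adjoin k {algebraMap K L t}) L := by
  set F := IntermediateField.adjoin k {t} with hF
  set F' := IntermediateField.adjoin k {algebraMap K L t} with hF'
  have hle : F ≤ F'.comap (IsScalarTower.toAlgHom k K L) := by
    rw [hF, IntermediateField.adjoin_le_iff]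
    rintro x hx
    rw [Set.mem_singleton_iff] at hx
    subst hx
    exact IntermediateField.subset_adjoin k _ rfl
  let φ : F →+* F' := ((algebraMap K L).comp F.val.toRingHom).codRestrict F' (fun x => hle x.2)
  let iF : Algebra F F' := φ.toAlgebra
  have i2 : IsScalarTower F F' L := IsScalarTower.of_algebraMap_eq fun x => rfl
  have h1 : Module.Finite F L := Module.Finite.trans K L
  exact Module.Finite.of_restrictScalars_finite F F' L

/-- **Few bad places, uniformly over extensions of bounded degree.** -/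
theorem few_bad_ext (k : Type v) (K : Type w) (L : Type u) [Field k] [Infinite k] [Field K]
    [Field L] [Algebra k K] [Algebra k L] [Algebra K L] [IsScalarTower k K L]
    (t : K) (ht : Transcendental k t) [FiniteDimensional (IntermediateField.adjoin k {t}) K]
    [FiniteDimensional K L] (D : ℕ) (hD : Module.finrank K L ≤ D) (s : ℕ)
    (S : Set (ValuationSubring K)) (hS : S.encard ≤ (s : ℕ∞))
    (d : ℕ) (hd : 2 ≤ d) (p q : L[X]) (hco : IsCoprime p q)
    (hmax : max p.natDegree q.natDegree = d)
    (hiso : ¬ ConjConst (algebraicClosure k L) p q d)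
    (hgood : ∀ B : ValuationSubring L, IsPl k B → B.comap (algebraMap K L) ∉ S → PG B p q d) :
    {z : Option L | (Set.range fun m : ℕ => (ratP1 p q d)^[m] z).Finite}.encard ≤
      ((q₀ d ^ max (D * s) 1 : ℕ) : ℕ∞) := by
  classical
  set t' : L := algebraMap K L t with ht'
  have htt : Transcendental k t' := (transcendental_algebraMap_iff (algebraMap K L).injective).mpr
    ht
  have hfin : FiniteDimensional (IntermediateField.adjoin k {t'}) L := fin_ext k K L t
  apply few_bad_core k L t' htt d hd p q hco hmax hiso (D * s)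
  intro Q hnt hine Z hZ
  have h1 : Z.card ≤ D * (Z.image fun v => (VS Q v).comap (algebraMap K L)).card := by
    apply Finset.card_le_mul_card_image
    intro A hA
    refine (card_over_le Q hnt hine A _ ?_).trans hD
    intro v hv
    exact (Finset.mem_filter.mp hv).2
  refine h1.trans (Nat.mul_le_mul le_rfl ?_)
  have h2 : ((Z.image fun v => (VS Q v).comap (algebraMap K L) : Finset _) :
      Set (ValuationSubring K)) ⊆ S := by
    intro A hA
    rw [Finset.mem_coe, Finset.mem_image] at hA
    obtain ⟨v, hv, rfl⟩ := hA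
    by_contra hnot
    obtain ⟨h3, h4⟩ := hZ v hv
    exact h4 (hgood _ h3 hnot)
  have h5 := (Set.encard_le_encard h2).trans hS
  rw [Set.encard_coe_eq_coe_finsetCard] at h5
  exact_mod_cast h5

end Pool.Agent.R829.FB
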