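import Pool.Agent.R829.FB.Pd

/-!
# Place data for inseparable function fields
-/

namespace Pool.Agent.R829.FB

open Pool.Agent.TH951.W.UB Polynomial

universe w

lemma ord_pow' {k K : Type*} [Field k] [Field K] [Algebra k K] (Q : PlaceData.{w} k K)
    (v : Q.Pl) {x : K} (hx : x ≠ 0) (n : ℕ) : Q.ord v (x ^ n) = n * Q.ord v x :=
  PlaceData.ord_pow hx n

/-- Pull back place data along a power of Frobenius. -/
theorem pd_pull (E K₁ K : Type*) [Field E] [Field K₁] [Field K] [Algebra E K₁] [Algebra K₁ K]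
    [Algebra E K] [IsScalarTower E K₁ K] (N : ℕ) (hN : 0 < N) (fr : K →+* K₁)
    (hfr : ∀ x, algebraMap K₁ K (fr x) = x ^ N)
    (halg : ∀ x : K, IsAlgebraic E x → ∃ c : E, algebraMap E K c = x)
    (Q : PlaceData.{w} E K₁) (hnt : ∀ v, ∃ x : K₁, x ≠ 0 ∧ Q.ord v x ≠ 0)
    (hine : ∀ v v' : Q.Pl, (∀ x : K₁, x ≠ 0 → (0 ≤ Q.ord v x ↔ 0 ≤ Q.ord v' x)) → v = v') :
    ∃ Q' : PlaceData.{w} E K, (∀ v, ∃ x : K, x ≠ 0 ∧ Q'.ord v x ≠ 0) ∧
      ∀ v v' : Q'.Pl, (∀ x : K, x ≠ 0 → (0 ≤ Q'.ord v x ↔ 0 ≤ Q'.ord v' x)) → v = v' := by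
  have hD : ∀ (x : K) (j : ℕ), ((0 : Derivation E K K)^[j]) x ≠ 0 → j = 0 := by
    intro x j hj
    rcases j with _ | j
    · rfl
    · exfalso
      apply hj
      rw [Function.iterate_succ_apply']
      rfl
  have hfr0 : ∀ x : K, x ≠ 0 → fr x ≠ 0 := fun x hx => (_root_.map_ne_zero fr).mpr hx
  have hfr1 : ∀ y : K₁, fr (algebraMap K₁ K y) = y ^ N := by
    intro y
    apply (algebraMap K₁ K).injective
    rw [hfr, map_pow]
  have hNZ : (0 : ℤ) < N := by exact_mod_cast hN
  refine ⟨{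
    Pl := Q.Pl
    ord := fun v x => Q.ord v (fr x)
    wt := Q.wt
    wt_nonneg := Q.wt_nonneg
    wt_one := Q.wt_one
    ord_mul := by
      intro v x y hx hy
      show Q.ord v (fr (x * y)) = Q.ord v (fr x) + Q.ord v (fr y)
      rw [map_mul]
      exact Q.ord_mul v _ _ (hfr0 x hx) (hfr0 y hy)
    ord_add := by
      intro v x y m hx hy hxy h1 h2
      show m ≤ Q.ord v (fr (x + y))
      rw [map_add]
      exact Q.ord_add v _ _ m (hfr0 x hx) (hfr0 y hy) (by
        rw [← map_add]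
        exact hfr0 _ hxy) h1 h2
    ord_alg := by
      intro v c hc
      show Q.ord v (fr (algebraMap E K c)) = 0
      rw [IsScalarTower.algebraMap_apply E K₁ K, hfr1, ← map_pow]
      exact Q.ord_alg v _ (pow_ne_zero _ hc)
    fin := fun x hx => Q.fin (fr x) (hfr0 x hx)
    prod_formula := fun x hx S hS => Q.prod_formula (fr x) (hfr0 x hx) S hS
    const := by
      intro x hx h
      obtain ⟨c, hc⟩ := Q.const (fr x) (hfr0 x hx) h
      apply halg
      have h1 : algebraMap E K c = x ^ N := by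
        rw [IsScalarTower.algebraMap_apply E K₁ K, hc, hfr]
      have h2 : IsAlgebraic E (x ^ N) := by
        rw [← h1]
        exact isAlgebraic_algebraMap c
      exact h2.of_pow hN
    D := 0
    loss := fun _ => 0
    loss_nonneg := fun _ => le_rfl
    lossS := ∅
    loss_supp := fun _ _ => rfl
    lossT := 0
    loss_sum := by simp
    D_ord := by
      intro v x j m _ h1 h2
      have h3 := hD x j h1
      subst h3
      simpa using h2
    D_ord' := by
      intro v x j _ h1 h2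
      have h3 := hD x j h1
      subst h3
      simpa using h2 }, ?_, ?_⟩
  · intro v
    obtain ⟨x, hx, hx0⟩ := hnt v
    refine ⟨algebraMap K₁ K x, (_root_.map_ne_zero _).mpr hx, ?_⟩
    show Q.ord v (fr (algebraMap K₁ K x)) ≠ 0
    rw [hfr1, ord_pow' Q v hx]
    exact mul_ne_zero hNZ.ne' hx0
  · intro v v' h
    apply hine v v'
    intro x hx
    have h1 : 0 ≤ Q.ord v (fr (algebraMap K₁ K x)) ↔ 0 ≤ Q.ord v' (fr (algebraMap K₁ K x)) :=
      h (algebraMap K₁ K x) ((_root_.map_ne_zero _).mpr hx)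
    rw [hfr1, ord_pow' Q v hx, ord_pow' Q v' hx, mul_nonneg_iff_of_pos_left hNZ,
      mul_nonneg_iff_of_pos_left hNZ] at h1
    exact h1

/-- Place data with inequivalent places, for any finite extension of `E(x)` in which `E` is
algebraically closed. -/
theorem exists_pd_all (E : Type*) (K : Type w) [Field E] [Field K] [Algebra E K]
    [Algebra (RatFunc E) K] [IsScalarTower E (RatFunc E) K] [FiniteDimensional (RatFunc E) K]
    (halg : ∀ x : K, IsAlgebraic E x → ∃ c : E, algebraMap E K c = x) :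
    ∃ Q : PlaceData.{w} E K, (∀ v, ∃ x : K, x ≠ 0 ∧ Q.ord v x ≠ 0) ∧
      ∀ v v' : Q.Pl, (∀ x : K, x ≠ 0 → (0 ≤ Q.ord v x ↔ 0 ≤ Q.ord v' x)) → v = v' := by
  let K₁ := separableClosure (RatFunc E) K
  have : IsPurelyInseparable K₁ K := separableClosure.isPurelyInseparable (RatFunc E) K
  have : FiniteDimensional K₁ K := inferInstance
  letI iE : Algebra E K₁ :=
    ((algebraMap (RatFunc E) K₁).comp (algebraMap E (RatFunc E))).toAlgebra
  have i1 : IsScalarTower E (RatFunc E) K₁ := IsScalarTower.of_algebraMap_eq fun c => rfl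
  have i2 : IsScalarTower E K₁ K := IsScalarTower.of_algebraMap_eq fun c => by
    rw [IsScalarTower.algebraMap_apply E (RatFunc E) K,
      IsScalarTower.algebraMap_apply (RatFunc E) K₁ K]
    rfl
  obtain ⟨p, hp⟩ := ExpChar.exists K₁
  have hK₁ : ∀ x : K₁, IsAlgebraic E x → ∃ c : E, algebraMap E K₁ c = x := by
    intro x hx
    have h1 : IsAlgebraic E (algebraMap K₁ K x) := hx.algebraMap
    obtain ⟨c, hc⟩ := halg _ h1
    refine ⟨c, ?_⟩
    apply (algebraMap K₁ K).injective
    rw [← hc, ← IsScalarTower.algebraMap_apply]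
  obtain ⟨Q, hnt, hine⟩ := exists_pd E K₁ hK₁
  exact pd_pull E K₁ K (p ^ IsPurelyInseparable.exponent K₁ K) (expChar_pow_pos K₁ p _)
    (IsPurelyInseparable.iterateFrobenius K₁ K p le_rfl)
    (IsPurelyInseparable.algebraMap_iterateFrobenius K₁ p le_rfl) halg Q hnt hine

end Pool.Agent.R829.FB
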