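import Pool.Agent.R829.FB.Glob
import Pool.Agent.R829.FB.Pull

/-!
# Few places of bad reduction: general function fields
-/

namespace Pool.Agent.R829.FB

open Pool.Agent.TH951.W.UB Pool.Agent.TH951.W.UG Pool.Agent.TH951.W.UH Polynomial

universe u v w

section FF

open IntermediateField

/-- A finite extension of `k(t)` is finitely generated. -/
lemma fg_of_fin (k L : Type*) [Field k] [Field L] [Algebra k L] (t : L)
    [FiniteDimensional (IntermediateField.adjoin k {t}) L] :
    (⊤ : IntermediateField k L).FG := by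
  classical
  let b := Module.finBasis (IntermediateField.adjoin k {t}) L
  refine ⟨insert t (Finset.univ.image b), ?_⟩
  rw [eq_top_iff]
  intro x _
  rw [← b.sum_repr x]
  refine sum_mem fun i _ => ?_
  rw [Algebra.smul_def]
  apply mul_mem
  · have h1 : IntermediateField.adjoin k {t} ≤
        IntermediateField.adjoin k (↑(insert t (Finset.univ.image b)) : Set L) :=
      IntermediateField.adjoin.mono k _ _ (by simp)
    exact h1 (b.repr x i).2
  · exact IntermediateField.subset_adjoin _ _ (by simp)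

theorem exists_pd_ff (k : Type*) (K : Type w) [Field k] [Field K] [Algebra k K] (x : K)
    (hxt : Transcendental k x) [FiniteDimensional (IntermediateField.adjoin k {x}) K] :
    ∃ Q : PlaceData.{w} (algebraicClosure k K) K, (∀ v, ∃ y : K, y ≠ 0 ∧ Q.ord v y ≠ 0) ∧
      ∀ v v' : Q.Pl, (∀ y : K, y ≠ 0 → (0 ≤ Q.ord v y ↔ 0 ≤ Q.ord v' y)) → v = v' := by
  classical
  have hFG := fg_of_fin k K x
  have hxa : Algebra.IsAlgebraic (IntermediateField.adjoin k {x}) K := inferInstance
  set E := algebraicClosure k K with hE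
  have hxt' : Transcendental E x := hxt.algebraicClosure
  have hinj : Function.Injective (aeval x : E[X] →ₐ[E] K) := by
    rw [← transcendental_iff_injective]
    exact hxt'
  let φ : RatFunc E →+* K := IsFractionRing.lift (g := (aeval x : E[X] →ₐ[E] K).toRingHom) hinj
  have hφ : ∀ p : E[X], φ (algebraMap E[X] (RatFunc E) p) = aeval x p := fun p =>
    IsFractionRing.lift_algebraMap _ p
  letI : Algebra (RatFunc E) K := φ.toAlgebra
  have hφ' : ∀ y, algebraMap (RatFunc E) K y = φ y := fun _ => rfl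
  have : IsScalarTower E (RatFunc E) K := by
    apply IsScalarTower.of_algebraMap_eq
    intro c
    rw [hφ']
    have h1 : algebraMap E (RatFunc E) c = algebraMap E[X] (RatFunc E) (C c) := by
      rw [RatFunc.algebraMap_C]
      rfl
    rw [h1, hφ, aeval_C]
  -- the range contains `k(x)`
  have hrange : ∀ y ∈ IntermediateField.adjoin k {x}, ∃ r : RatFunc E, φ r = y := by
    have h1 : IntermediateField.adjoin k {x} ≤
        ({ carrier := Set.range φ
           mul_mem' := by
            rintro _ _ ⟨a, rfl⟩ ⟨b, rfl⟩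
            exact ⟨a * b, map_mul _ _ _⟩
           add_mem' := by
            rintro _ _ ⟨a, rfl⟩ ⟨b, rfl⟩
            exact ⟨a + b, map_add _ _ _⟩
           algebraMap_mem' := by
            intro c
            refine ⟨algebraMap E[X] (RatFunc E) (C (algebraMap k E c)), ?_⟩
            rw [hφ, aeval_C]
            rfl
           inv_mem' := by
            rintro _ ⟨a, rfl⟩
            exact ⟨a⁻¹, map_inv₀ _ _⟩ } : IntermediateField k K) := by
      rw [IntermediateField.adjoin_le_iff]
      rintro y hy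
      rw [Set.mem_singleton_iff] at hy
      subst hy
      exact ⟨algebraMap E[X] (RatFunc E) X, by rw [hφ, aeval_X]⟩
    intro y hy
    exact h1 hy
  have hlift : ∀ p : Polynomial (IntermediateField.adjoin k {x}), ∃ q : Polynomial (RatFunc E),
      q.map (algebraMap (RatFunc E) K) =
        p.map (algebraMap (IntermediateField.adjoin k {x}) K) := by
    intro p
    have h1 : p.map (algebraMap (IntermediateField.adjoin k {x}) K) ∈
        lifts (algebraMap (RatFunc E) K) := by
      rw [lifts_iff_coeff_lifts]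
      intro n
      rw [coeff_map]
      obtain ⟨r, hr⟩ := hrange _ (p.coeff n).2
      exact ⟨r, hr⟩
    obtain ⟨q, hq⟩ := h1
    exact ⟨q, hq⟩
  have hint : ∀ z : K, IsIntegral (RatFunc E) z := by
    intro z
    obtain ⟨p, hp0, hp⟩ := hxa.isAlgebraic z
    obtain ⟨q, hq'⟩ := hlift p
    rw [← isAlgebraic_iff_isIntegral]
    refine ⟨q, ?_, ?_⟩
    · rintro rfl
      rw [Polynomial.map_zero] at hq'
      exact hp0 ((Polynomial.map_eq_zero _).mp hq'.symm)
    · rw [← eval_map_algebraMap, hq', eval_map_algebraMap]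
      exact hp
  have : FiniteDimensional (RatFunc E) K := by
    obtain ⟨T, hT⟩ := hFG
    have h1 : IntermediateField.adjoin (RatFunc E) (T : Set K) = ⊤ := by
      rw [eq_top_iff]
      intro z _
      have h2 : z ∈ IntermediateField.adjoin k (T : Set K) := by
        rw [hT]
        trivial
      have h3 : IntermediateField.adjoin k (T : Set K) ≤
          ({ (IntermediateField.adjoin (RatFunc E) (T : Set K)).toSubfield with
              algebraMap_mem' := by
                intro c
                have h4 : algebraMap k K c = algebraMap (RatFunc E) K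
                    (algebraMap E[X] (RatFunc E) (C (algebraMap k E c))) := by
                  rw [hφ', hφ, aeval_C]
                  rfl
                rw [h4]
                exact (IntermediateField.adjoin (RatFunc E) (T : Set K)).algebraMap_mem _ } :
            IntermediateField k K) := by
        rw [IntermediateField.adjoin_le_iff]
        intro y hy
        exact IntermediateField.subset_adjoin (RatFunc E) (T : Set K) hy
      exact h3 h2
    have h2 : FiniteDimensional (RatFunc E) (IntermediateField.adjoin (RatFunc E) (T : Set K)) :=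
      IntermediateField.finiteDimensional_adjoin fun z _ => hint z
    rw [h1] at h2
    exact Module.Finite.equiv (IntermediateField.topEquiv (F := RatFunc E) (E := K)).toLinearEquiv
  apply exists_pd_all E K
  intro y hy
  have h1 : IsAlgebraic k y := by
    exact hy.restrictScalars k
  exact ⟨⟨y, h1.isIntegral⟩, rfl⟩

end FF

section VS

variable {k : Type v} {K : Type u} [Field k] [Field K] [Algebra k K]

/-- the valuation ring of a place -/
def VS (Q : PlaceData.{w} k K) (v₀ : Q.Pl) : ValuationSubring K where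
  carrier := {x | Q.G v₀ 0 x}
  mul_mem' := by
    intro a b ha hb
    have := PlaceData.G_mul ha hb
    simpa using this
  one_mem' := PlaceData.G_one
  add_mem' := fun ha hb => PlaceData.G_add ha hb
  zero_mem' := PlaceData.G_zero
  neg_mem' := fun ha => PlaceData.G_neg ha
  mem_or_inv_mem' := by
    intro x
    by_cases hx : x = 0
    · left
      subst hx
      exact PlaceData.G_zero
    · rcases le_total 0 (Q.ord v₀ x) with h | h
      · left
        exact fun _ => h
      · right
        intro _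
        rw [PlaceData.ord_inv hx]
        linarith

lemma mem_VS (Q : PlaceData.{w} k K) (v₀ : Q.Pl) (x : K) (hx : x ≠ 0) :
    x ∈ VS Q v₀ ↔ 0 ≤ Q.ord v₀ x := ⟨fun h => h hx, fun h _ => h⟩

lemma alg_mem_VS (Q : PlaceData.{w} k K) (v₀ : Q.Pl) (c : k) : algebraMap k K c ∈ VS Q v₀ :=
  PlaceData.G_alg c

/-- norms are powers of a uniformizer -/
lemma norm_ord {Ω : Type*} [NormedField Ω] (Q : PlaceData.{w} k K) (v₀ : Q.Pl) (ι : K →+* Ω)
    (hnt : ∃ y : K, y ≠ 0 ∧ Q.ord v₀ y ≠ 0) (h : ∀ x : K, ‖ι x‖ ≤ 1 ↔ x ∈ VS Q v₀) :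
    ∃ C₀ : ℝ, 0 < C₀ ∧ ∀ x : K, x ≠ 0 → -Real.log ‖ι x‖ = C₀ * Q.ord v₀ x := by
  obtain ⟨y, hy0, hy⟩ : ∃ y : K, y ≠ 0 ∧ 0 < Q.ord v₀ y := by
    obtain ⟨y, hy0, hy⟩ := hnt
    rcases lt_or_gt_of_ne hy with h1 | h1
    · refine ⟨y⁻¹, inv_ne_zero hy0, ?_⟩
      rw [PlaceData.ord_inv hy0]
      linarith
    · exact ⟨y, hy0, h1⟩
  have hunit : ∀ z : K, z ≠ 0 → Q.ord v₀ z = 0 → ‖ι z‖ = 1 := by
    intro z hz hz0
    have h1 := (h z).mpr ((mem_VS Q v₀ z hz).mpr hz0.ge)
    have h2 := (h z⁻¹).mpr ((mem_VS Q v₀ z⁻¹ (inv_ne_zero hz)).mpr (by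
      rw [PlaceData.ord_inv hz, hz0, neg_zero]))
    rw [map_inv₀, norm_inv] at h2
    have hpos : 0 < ‖ι z‖ := norm_pos_iff.mpr ((map_ne_zero ι).mpr hz)
    have h3 := (inv_le_one₀ hpos).mp h2
    exact le_antisymm h1 h3
  have hy1 : ‖ι y‖ < 1 := by
    have h1 : ¬ ‖ι y⁻¹‖ ≤ 1 := by
      intro h2
      have h3 := (mem_VS Q v₀ y⁻¹ (inv_ne_zero hy0)).mp ((h y⁻¹).mp h2)
      rw [PlaceData.ord_inv hy0] at h3
      linarith
    rw [map_inv₀, norm_inv, not_le] at h1
    have hpos : 0 < ‖ι y‖ := norm_pos_iff.mpr ((map_ne_zero ι).mpr hy0)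
    exact (one_lt_inv₀ hpos).mp h1
  have hypos : 0 < ‖ι y‖ := norm_pos_iff.mpr ((map_ne_zero ι).mpr hy0)
  have hlogy : Real.log ‖ι y‖ < 0 := Real.log_neg hypos hy1
  have hyR : (0 : ℝ) < Q.ord v₀ y := by exact_mod_cast hy
  refine ⟨-Real.log ‖ι y‖ / Q.ord v₀ y, div_pos (neg_pos.mpr hlogy) hyR, ?_⟩
  intro x hx
  obtain ⟨m, hm⟩ := Int.eq_ofNat_of_zero_le hy.le
  have hxpos : 0 < ‖ι x‖ := norm_pos_iff.mpr ((map_ne_zero ι).mpr hx)
  have key : (m : ℝ) * Real.log ‖ι x‖ = Q.ord v₀ x * Real.log ‖ι y‖ := by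
    rcases le_total 0 (Q.ord v₀ x) with hn | hn
    · obtain ⟨n, hn'⟩ := Int.eq_ofNat_of_zero_le hn
      have h1 := hunit (x ^ m / y ^ n) (div_ne_zero (pow_ne_zero _ hx) (pow_ne_zero _ hy0)) (by
        rw [PlaceData.ord_div (pow_ne_zero _ hx) (pow_ne_zero _ hy0), PlaceData.ord_pow hx,
          PlaceData.ord_pow hy0, hm, hn']
        push_cast
        ring)
      rw [map_div₀, norm_div, map_pow, map_pow, norm_pow, norm_pow,
        div_eq_one_iff_eq (pow_ne_zero _ hypos.ne')] at h1
      have h2 := congrArg Real.log h1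
      rw [Real.log_pow, Real.log_pow] at h2
      rw [hn']
      push_cast
      exact h2
    · obtain ⟨n, hn'⟩ := Int.eq_ofNat_of_zero_le (neg_nonneg.mpr hn)
      have h1 := hunit (x ^ m * y ^ n) (mul_ne_zero (pow_ne_zero _ hx) (pow_ne_zero _ hy0)) (by
        rw [Q.ord_mul v₀ _ _ (pow_ne_zero _ hx) (pow_ne_zero _ hy0), PlaceData.ord_pow hx,
          PlaceData.ord_pow hy0, hm]
        have h3 : Q.ord v₀ x = -(n : ℤ) := by omega
        rw [h3]
        push_cast
        ring)
      rw [map_mul, norm_mul, map_pow, map_pow, norm_pow, norm_pow] at h1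
      have h2 := congrArg Real.log h1
      rw [Real.log_mul (pow_ne_zero _ hxpos.ne') (pow_ne_zero _ hypos.ne'), Real.log_pow,
        Real.log_pow, Real.log_one] at h2
      have h3 : Q.ord v₀ x = -(n : ℤ) := by omega
      rw [h3]
      push_cast
      linarith
  have hm' : (Q.ord v₀ y : ℝ) = m := by
    rw [hm]
    simp
  rw [hm'] at hyR ⊢
  field_simp
  linarith

end VS

/-- preperiodic points lie in finite stable sets -/
theorem prePer_of_stable {A : Type u} (F : A → A) (B : ℕ)
    (h : ∀ P : Finset A, (∀ z ∈ P, F z ∈ P) → P.card ≤ B) :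
    {z : A | (Set.range fun m : ℕ => F^[m] z).Finite}.encard ≤ (B : ℕ∞) := by
  classical
  by_contra hcon
  push Not at hcon
  obtain ⟨T, hTs, hT⟩ := Set.exists_subset_encard_eq (Order.add_one_le_of_lt hcon)
  have hTf : T.Finite := by
    apply Set.finite_of_encard_eq_coe (k := B + 1)
    rw [hT]
    norm_cast
  have h1 : (⋃ z ∈ T, Set.range fun m : ℕ => F^[m] z).Finite :=
    hTf.biUnion fun z hz => hTs hz
  have h2 := h h1.toFinset (by
    intro z hz
    rw [Set.Finite.mem_toFinset, Set.mem_iUnion₂] at hz ⊢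
    obtain ⟨w, hw, m, hm⟩ := hz
    refine ⟨w, hw, m + 1, ?_⟩
    simp only at hm ⊢
    rw [Function.iterate_succ_apply', hm])
  have h3 : hTf.toFinset ⊆ h1.toFinset := by
    intro z hz
    rw [Set.Finite.mem_toFinset] at hz ⊢
    rw [Set.mem_iUnion₂]
    exact ⟨z, hz, 0, rfl⟩
  have h4 := Finset.card_le_card h3
  have h5 : (hTf.toFinset.card : ℕ∞) = B + 1 := by
    rw [← hT, hTf.encard_eq_coe_toFinset_card]
  have h6 : hTf.toFinset.card = B + 1 := by exact_mod_cast h5
  omega

/-- `A` is the valuation ring of a place of `K / k`. -/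
def IsPl (k : Type v) {K : Type u} [Field k] [Field K] [Algebra k K] (A : ValuationSubring K) :
    Prop := (∀ c : k, algebraMap k K c ∈ A) ∧ A ≠ ⊤

/-- potentially good reduction -/
def PG {K : Type u} [Field K] (A : ValuationSubring K) (p q : K[X]) (d : ℕ) : Prop :=
  ∃ (Ω : Type u) (_ : NormedField Ω) (_ : IsAlgClosed Ω) (_ : IsUltrametricDist Ω) (ι : K →+* Ω),
    (∀ x : K, ‖ι x‖ ≤ 1 ↔ x ∈ A) ∧ ∃ a b c e s : Ω, a * e - b * c ≠ 0 ∧ s ≠ 0 ∧
    ∃ u v : Polynomial Ω, u.natDegree ≤ d ∧ v.natDegree ≤ d ∧ (∀ n, ‖u.coeff n‖ ≤ 1) ∧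
    (∀ n, ‖v.coeff n‖ ≤ 1) ∧ ‖resultant u v d d‖ = 1 ∧
    ∑ i ∈ Finset.range (d + 1), C (u.coeff i) * (C a * X + C b) ^ i * (C c * X + C e) ^ (d - i) =
      C s * (C a * p.map ι + C b * q.map ι) ∧
    ∑ i ∈ Finset.range (d + 1), C (v.coeff i) * (C a * X + C b) ^ i * (C c * X + C e) ^ (d - i) =
      C s * (C c * p.map ι + C e * q.map ι)

/-- **Few bad places.** -/
theorem few_bad_core (k : Type v) (K : Type u) [Field k] [Infinite k] [Field K] [Algebra k K]
    (t : K) (ht : Transcendental k t) [FiniteDimensional (IntermediateField.adjoin k {t}) K]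
    (d : ℕ) (hd : 2 ≤ d) (p q : K[X]) (hco : IsCoprime p q)
    (hmax : max p.natDegree q.natDegree = d)
    (hiso : ¬ ConjConst (algebraicClosure k K) p q d) (n : ℕ)
    (hn : ∀ Q : PlaceData.{u} (algebraicClosure k K) K,
      (∀ v, ∃ y : K, y ≠ 0 ∧ Q.ord v y ≠ 0) →
      (∀ v v' : Q.Pl, (∀ y : K, y ≠ 0 → (0 ≤ Q.ord v y ↔ 0 ≤ Q.ord v' y)) → v = v') →
      ∀ Z : Finset Q.Pl, (∀ v ∈ Z, IsPl k (VS Q v) ∧ ¬ PG (VS Q v) p q d) → Z.card ≤ n) :
    {z : Option K | (Set.range fun m : ℕ => (ratP1 p q d)^[m] z).Finite}.encard ≤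
      ((q₀ d ^ max n 1 : ℕ) : ℕ∞) := by
  classical
  have hQ := exists_pd_ff k K t ht
  set E := algebraicClosure k K with hE
  obtain ⟨Q, hnt, hine⟩ := hQ
  have : Infinite E := Infinite.of_injective _ (algebraMap k E).injective
  have : Infinite K := Infinite.of_injective _ (algebraMap k K).injective
  have hp : p.natDegree ≤ d := by rw [← hmax]; exact le_max_left _ _
  have hq : q.natDegree ≤ d := by rw [← hmax]; exact le_max_right _ _
  apply prePer_of_stable
  intro P hP
  obtain ⟨c, P', h1, h2, h3, h4, h5, h6⟩ := stable_reduce (k := E) d hd p q hmax hco P hP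
  rw [← h5]
  apply card_few d hd E K Q _ _ h1 h2 h3 P' h4 (fun h => hiso (h6 h)) n
  intro Z hZ
  apply hn Q hnt hine Z
  intro v hv
  refine ⟨⟨fun c => ?_, ?_⟩, ?_⟩
  · exact alg_mem_VS Q v (algebraMap k E c)
  · intro htop
    obtain ⟨y, hy0, hy⟩ := hnt v
    have htop' : VS Q v = ⊤ := htop
    have g1 : y ∈ VS Q v := by rw [htop']; trivial
    have g2 : y⁻¹ ∈ VS Q v := by rw [htop']; trivial
    have g3 := (mem_VS Q v y hy0).mp g1
    have g4 := (mem_VS Q v y⁻¹ (inv_ne_zero hy0)).mp g2
    rw [PlaceData.ord_inv hy0] at g4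
    omega
  · rintro ⟨Ω, iN, iA, iU, ι, hι, a, b, c', e, s, hdet, hs, u, w, hu, hw, hu1, hw1, hres, hF1,
      hF2⟩
    obtain ⟨C₀, hC₀, hlog⟩ := norm_ord Q v ι (hnt v) hι
    have hPG := PGF_of_poly ι p q d hp hq hdet hs hu hw hu1 hw1 hres hF1 hF2
    have hPG' := PGF_pc ι p q d hp hq c hPG
    have hres0 := res_ne d _ _ h1 h2 (by omega) h3
    obtain ⟨al, hal⟩ := exists_a d hd P' (fun z => (pc d q c).eval z /
      (pc d (p - C c * q) c).eval z) (fun z hz => (h4 z hz).2)
      (fun z => (Q.ord v ((pc d (p - C c * q) c).eval z) : ℝ))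
    obtain ⟨x, hx, y, hy, hxy, hlt⟩ := hZ v hv al _ hal rfl
    obtain ⟨B, _⟩ := exists_famK ι (c := fun i => algebraMap E K (Infinite.natEmbedding E i))
      (by
        have hle : ∀ z : E, ‖ι (algebraMap E K z)‖ ≤ 1 := fun z => (hι _).mpr (alg_mem_VS Q v z)
        refine ⟨fun i => hle _, fun i j hij => ?_⟩
        have hne : (Infinite.natEmbedding E i - Infinite.natEmbedding E j : E) ≠ 0 :=
          sub_ne_zero.mpr fun h => hij ((Infinite.natEmbedding E).injective h)
        have e1 : ι (algebraMap E K (Infinite.natEmbedding E i)) -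
            ι (algebraMap E K (Infinite.natEmbedding E j)) =
            ι (algebraMap E K (Infinite.natEmbedding E i - Infinite.natEmbedding E j)) := by
          rw [map_sub, map_sub]
        rw [e1]
        have g1 := hle (Infinite.natEmbedding E i - Infinite.natEmbedding E j)
        have g2 := hle (Infinite.natEmbedding E i - Infinite.natEmbedding E j)⁻¹
        rw [map_inv₀, map_inv₀, norm_inv] at g2
        have hpos : 0 < ‖ι (algebraMap E K (Infinite.natEmbedding E i -
            Infinite.natEmbedding E j))‖ :=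
          norm_pos_iff.mpr ((map_ne_zero ι).mpr ((_root_.map_ne_zero _).mpr hne))
        exact le_antisymm g1 ((inv_le_one₀ hpos).mp g2))
    have hge := GG_nonneg Q v B ι C₀ hC₀ hlog _ _ d hd h1 h2 h3 P' h4 al hal _ rfl hres0 hPG'
      x hx y hy hxy
    exact absurd hlt (not_lt.mpr hge)

end Pool.Agent.R829.FB
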