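import Pool.Agent.R829.FB.Tr

/-!
# Few bad places
-/

namespace Pool.Agent.R829.FB

open Pool.Agent.TH951.W.UB Pool.Agent.TH951.W.UG Pool.Agent.TH951.W.UH Finset Polynomial

universe u v w

/-- **The bound for finite stable sets.** The set `Z` of places contains all the places at which
the Green function takes a negative value. -/
theorem card_few (d : ℕ) (hd : 2 ≤ d) (k : Type v) (K : Type u) [Field k] [Infinite k] [Field K]
    [Algebra k K] [DecidableEq K] (Q : PlaceData.{w} k K) (p q : Polynomial K)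
    (hp : p.natDegree ≤ d) (hq : q.natDegree = d) (hco : IsCoprime p q) (P : Finset K)
    (hP : ∀ z ∈ P, q.eval z ≠ 0 ∧ p.eval z / q.eval z ∈ P) (hiso : ¬ ConjConst k p q d) (n : ℕ)
    (hn : ∀ Z : Finset Q.Pl, (∀ v ∈ Z, ∀ (a : K → ℝ) (ρ : ℝ),
      (∀ z ∈ P, (d : ℝ) * a z = Q.ord v (q.eval z) + a (p.eval z / q.eval z)) →
      ρ = (Q.ord v (resultant q p d d) : ℝ) / (d * ((d : ℝ) - 1)) →
      ∃ x ∈ P, ∃ y ∈ P, x ≠ y ∧ GG Q v a ρ x y < 0) → Z.card ≤ n) :
    P.card ≤ (q₀ d) ^ (max n 1) := by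
  classical
  have hdR : (2 : ℝ) ≤ d := by exact_mod_cast hd
  by_contra hbig
  push Not at hbig
  have hq0 : 3 * d + 4 ≤ q₀ d := by
    unfold q₀
    have h2 : 64 ≤ d ^ 6 := by
      calc 64 = 2 ^ 6 := by norm_num
        _ ≤ d ^ 6 := Nat.pow_le_pow_left hd 6
    have h4 : 16 * d ≤ 16 * d * (d + 1) := Nat.le_mul_of_pos_right _ (by omega)
    generalize 16 * d * (d + 1) = y at h4
    generalize d ^ 6 = x at h2
    have h5 : 128 * (y + 1) ≤ (x + x) * (y + 1) := Nat.mul_le_mul (by omega) le_rfl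
    omega
  have hqP : q₀ d < P.card := by
    refine lt_of_le_of_lt ?_ hbig
    exact Nat.le_self_pow (by omega) _
  have hres := res_ne d p q hp hq (by omega) hco
  set r := resultant q p d d with hr
  set fz : K → K := fun z => p.eval z / q.eval z with hfz
  have hf : ∀ z ∈ P, fz z ∈ P := fun z hz => (hP z hz).2
  set E : Finset K := insert r (P.image q.eval ∪ P.offDiag.image fun w => w.1 - w.2) with hE
  set S : Finset Q.Pl := E.biUnion (fun x => if h : x ≠ 0 then (Q.fin x h).toFinset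
    else ∅) with hS
  have hSE : ∀ v, v ∉ S → ∀ x ∈ E, x ≠ 0 → Q.ord v x = 0 := by
    intro v hv x hx hx0
    by_contra h
    apply hv
    rw [hS, Finset.mem_biUnion]
    refine ⟨x, hx, ?_⟩
    rw [dif_pos hx0, Set.Finite.mem_toFinset]
    exact h
  have hrE : r ∈ E := Finset.mem_insert_self _ _
  have hqE : ∀ z ∈ P, q.eval z ∈ E := fun z hz => Finset.mem_insert_of_mem
    (Finset.mem_union_left _ (Finset.mem_image_of_mem _ hz))
  have hxE : ∀ x ∈ P, ∀ y ∈ P, x ≠ y → x - y ∈ E := fun x hx y hy hxy =>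
    Finset.mem_insert_of_mem (Finset.mem_union_right _ (Finset.mem_image.mpr
      ⟨(x, y), Finset.mem_offDiag.mpr ⟨hx, hy, hxy⟩, rfl⟩))
  choose a ha using fun v => exists_a d hd P fz hf (fun z => (Q.ord v (q.eval z) : ℝ))
  set ρ : Q.Pl → ℝ := fun v => (Q.ord v r : ℝ) / (d * ((d : ℝ) - 1)) with hρ
  have hL : ∀ v, Nonempty (LD Q v d P (a v) (ρ v)) := fun v =>
    local_all' Q v d hd p q hp hq hco P hP (a v) (ha v) (ρ v) hres rfl
  let L : ∀ v, LD Q v d P (a v) (ρ v) := fun v => Classical.choice (hL v)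
  have hS1 : ∀ v, v ∉ S → ∀ x ∈ P, ∀ y ∈ P, x ≠ y → Q.ord v (x - y) = 0 :=
    fun v hv x hx y hy hxy => hSE v hv _ (hxE x hx y hy hxy) (sub_ne_zero.mpr hxy)
  have hS2 : ∀ v, v ∉ S → (∀ x ∈ P, a v x = 0) ∧ ρ v = 0 := by
    intro v hv
    constructor
    · apply stable_zero d hd P fz hf
      intro z hz
      rw [ha v z hz, hSE v hv _ (hqE z hz) (hP z hz).1]
      simp
    · simp only [hρ]
      rw [hSE v hv r hrE hres]
      simp
  have hwa : ∀ x ∈ P, ∑ v ∈ S, (Q.wt v : ℝ) * a v x = 0 := by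
    apply stable_zero d hd P fz hf (fun x => ∑ v ∈ S, (Q.wt v : ℝ) * a v x)
    intro z hz
    have h1 := prod_zero Q S (q.eval z) (hP z hz).1
      (fun v hv => hSE v hv _ (hqE z hz) (hP z hz).1)
    have h2 : ∑ v ∈ S, (Q.wt v : ℝ) * (Q.ord v (q.eval z) : ℝ) = 0 := by exact_mod_cast h1
    have h3 : (d : ℝ) * ∑ v ∈ S, (Q.wt v : ℝ) * a v z =
        ∑ v ∈ S, (Q.wt v : ℝ) * (Q.ord v (q.eval z) : ℝ) +
          ∑ v ∈ S, (Q.wt v : ℝ) * a v (fz z) := by
      rw [Finset.mul_sum, ← Finset.sum_add_distrib]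
      apply Finset.sum_congr rfl
      intro v _
      have := ha v z hz
      linear_combination (Q.wt v : ℝ) * this
    rw [h3, h2, zero_add]
  have hwρ : ∑ v ∈ S, (Q.wt v : ℝ) * ρ v = 0 := by
    have h1 := prod_zero Q S r hres (fun v hv => hSE v hv _ hrE hres)
    have h2 : ∑ v ∈ S, (Q.wt v : ℝ) * (Q.ord v r : ℝ) = 0 := by exact_mod_cast h1
    have h3 : ∑ v ∈ S, (Q.wt v : ℝ) * ρ v =
        (∑ v ∈ S, (Q.wt v : ℝ) * (Q.ord v r : ℝ)) / (d * ((d : ℝ) - 1)) := by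
      rw [Finset.sum_div]
      apply Finset.sum_congr rfl
      intro v _
      simp only [hρ]
      ring
    rw [h3, h2, zero_div]
  have hwt : ∀ v, (0 : ℝ) ≤ Q.wt v := fun v => by exact_mod_cast Q.wt_nonneg v
  have hwt1 : ∀ v, (1 : ℝ) ≤ Q.wt v := fun v => by exact_mod_cast Q.wt_one v
  have hpair : ∀ x ∈ P, ∀ y ∈ P, x ≠ y → ∑ v ∈ S, (Q.wt v : ℝ) * GG Q v (a v) (ρ v) x y = 0 := by
    intro x hx y hy hxy
    have h1 := prod_zero Q S (x - y) (sub_ne_zero.mpr hxy) fun v hv => hS1 v hv x hx y hy hxy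
    have h2 : ∑ v ∈ S, (Q.wt v : ℝ) * (Q.ord v (x - y) : ℝ) = 0 := by exact_mod_cast h1
    have h3 : ∀ v, (Q.wt v : ℝ) * GG Q v (a v) (ρ v) x y = (Q.wt v : ℝ) * (Q.ord v (x - y) : ℝ) -
        (Q.wt v : ℝ) * a v x - (Q.wt v : ℝ) * a v y + (Q.wt v : ℝ) * ρ v := by
      intro v
      unfold GG
      ring
    simp_rw [h3]
    rw [Finset.sum_add_distrib, Finset.sum_sub_distrib, Finset.sum_sub_distrib, h2, hwa x hx,
      hwa y hy, hwρ]
    ring
  have hGG0 : ∀ v, v ∉ S → ∀ x ∈ P, ∀ y ∈ P, x ≠ y → GG Q v (a v) (ρ v) x y = 0 := by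
    intro v hv x hx y hy hxy
    unfold GG
    rw [hS1 v hv x hx y hy hxy, (hS2 v hv).1 x hx, (hS2 v hv).1 y hy, (hS2 v hv).2]
    simp
  -- the places with a negative value
  set Bd := S.filter fun v => ∃ x ∈ P, ∃ y ∈ P, x ≠ y ∧ GG Q v (a v) (ρ v) x y < 0 with hBd
  have hnn : ∀ v, v ∉ Bd → ∀ x ∈ P, ∀ y ∈ P, x ≠ y → 0 ≤ GG Q v (a v) (ρ v) x y := by
    intro v hv x hx y hy hxy
    by_cases hvS : v ∈ S
    · by_contra hneg
      exact hv (Finset.mem_filter.mpr ⟨hvS, x, hx, y, hy, hxy, not_le.mp hneg⟩)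
    · rw [hGG0 v hvS x hx y hy hxy]
  have hBdc : Bd.card ≤ n := by
    apply hn
    intro v hv a' ρ' ha' hρ'
    obtain ⟨x, hx, y, hy, hxy, hlt⟩ := (Finset.mem_filter.mp hv).2
    refine ⟨x, hx, y, hy, hxy, ?_⟩
    have h1 : ∀ z ∈ P, a' z - a v z = 0 := by
      apply stable_zero d hd P fz hf (fun z => a' z - a v z)
      intro z hz
      have h2 := ha v z hz
      have h3 := ha' z hz
      simp only [hfz] at h2 ⊢
      linear_combination h3 - h2
    have h4 : GG Q v a' ρ' x y = GG Q v (a v) (ρ v) x y := by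
      unfold GG
      have h5 := h1 x hx
      have h6 := h1 y hy
      have h7 : ρ' = ρ v := hρ'
      rw [h7]
      linarith
    rw [h4]
    exact hlt
  have hR1 : ∀ v ∈ Bd, 1 ≤ (L v).R := by
    intro v hv
    by_contra h0
    obtain ⟨x, hx, y, hy, hxy, hlt⟩ := (Finset.mem_filter.mp hv).2
    rw [(L v).GG_good (by omega) hx hy hxy] at hlt
    exact absurd hlt (not_lt.mpr (Nat.cast_nonneg _))
  by_cases hBne : Bd.Nonempty
  · obtain ⟨v₀, hv₀⟩ := hBne
    have hcol : ∀ v, ∃ χ : K → Fin (q₀ d), v ∈ Bd → ∀ x ∈ P, ∀ y ∈ P,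
        x ≠ y → χ x = χ y → 0 < GG Q v (a v) (ρ v) x y := by
      intro v
      by_cases hv : v ∈ Bd
      · obtain ⟨χ, hχ⟩ := (L v).GG_colour hd (hR1 v hv)
        exact ⟨χ, fun _ => hχ⟩
      · obtain ⟨χ, hχ⟩ := (L v₀).GG_colour hd (hR1 v₀ hv₀)
        exact ⟨χ, fun h => absurd h hv⟩
    choose χ hχ using hcol
    have hcon : (q₀ d) ^ Bd.card < P.card := by
      refine lt_of_le_of_lt ?_ hbig
      exact Nat.pow_le_pow_right (by omega) (hBdc.trans (le_max_left _ _))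
    obtain ⟨x, hx, y, hy, hxy, hc⟩ := Finset.exists_ne_map_eq_of_card_lt_of_maps_to
      (s := P) (t := (Finset.univ : Finset ({v // v ∈ Bd} → Fin (q₀ d))))
      (f := fun x => fun v : {v // v ∈ Bd} => χ v.1 x) (by
        rw [Finset.card_univ, Fintype.card_fun, Fintype.card_fin, Fintype.card_coe]
        exact hcon) (fun _ _ => Finset.mem_univ _)
    have hlt : ∀ v ∈ Bd, 0 < GG Q v (a v) (ρ v) x y := fun v hv =>
      hχ v hv x hx y hy hxy (congrFun hc ⟨v, hv⟩)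
    have hsum : 0 < ∑ v ∈ S, (Q.wt v : ℝ) * GG Q v (a v) (ρ v) x y := by
      apply Finset.sum_pos'
      · intro v hv
        apply mul_nonneg (hwt v)
        by_cases hvB : v ∈ Bd
        · exact (hlt v hvB).le
        · exact hnn v hvB x hx y hy hxy
      · refine ⟨v₀, (Finset.mem_filter.mp hv₀).1, mul_pos ?_ (hlt v₀ hv₀)⟩
        linarith [hwt1 v₀]
    rw [hpair x hx y hy hxy] at hsum
    exact lt_irrefl _ hsum
  · rw [Finset.not_nonempty_iff_eq_empty] at hBne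
    have hnn' : ∀ v, ∀ x ∈ P, ∀ y ∈ P, x ≠ y → 0 ≤ GG Q v (a v) (ρ v) x y := fun v =>
      hnn v (by rw [hBne]; exact Finset.notMem_empty v)
    have hGGz : ∀ v, ∀ x ∈ P, ∀ y ∈ P, x ≠ y → GG Q v (a v) (ρ v) x y = 0 := by
      intro v x hx y hy hxy
      by_cases hv : v ∈ S
      · have h1 := (Finset.sum_eq_zero_iff_of_nonneg (fun v _ => mul_nonneg (hwt v)
          (hnn' v x hx y hy hxy))).mp (hpair x hx y hy hxy) v hv
        rcases mul_eq_zero.mp h1 with h2 | h2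
        · have := hwt1 v
          linarith
        · exact h2
      · exact hGG0 v hv x hx y hy hxy
    apply hiso
    apply conj_of_cross p q d hp hq hd hco P hP P (Finset.Subset.refl _)
    · intro x0 h0 x1 h1 x2 h2 x hx h01 h02 h12 hx2 hx0
      have n1 := sub_ne_zero.mpr hx0
      have n2 := sub_ne_zero.mpr h12
      have n3 := sub_ne_zero.mpr hx2
      have n4 := sub_ne_zero.mpr h01.symm
      apply Q.const _ (div_ne_zero (mul_ne_zero n1 n2) (mul_ne_zero n3 n4))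
      intro v
      rw [PlaceData.ord_div (mul_ne_zero n1 n2) (mul_ne_zero n3 n4), Q.ord_mul v _ _ n1 n2,
        Q.ord_mul v _ _ n3 n4]
      have g1 := hGGz v x hx x0 h0 hx0
      have g2 := hGGz v x1 h1 x2 h2 h12
      have g3 := hGGz v x hx x2 h2 hx2
      have g4 := hGGz v x1 h1 x0 h0 h01.symm
      unfold GG at g1 g2 g3 g4
      have g5 : (Q.ord v (x - x0) : ℝ) + Q.ord v (x1 - x2) -
          (Q.ord v (x - x2) + Q.ord v (x1 - x0)) = 0 := by linarith
      have g6 : Q.ord v (x - x0) + Q.ord v (x1 - x2) -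
          (Q.ord v (x - x2) + Q.ord v (x1 - x0)) = 0 := by exact_mod_cast g5
      omega
    · rw [Finset.sdiff_self, Finset.card_empty, mul_zero, zero_add]
      omega

end Pool.Agent.R829.FB
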