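import Pool.Agent.TH951.W.UH.F1

/-!
# Places of potentially good reduction: the Green function of a finite stable set is nonnegative
-/

namespace Pool.Agent.R829.FB

open Pool.Agent.TH951.W.UB Pool.Agent.TH951.W.UG Pool.Agent.TH951.W.UH Finset Polynomial

universe u

section Norm

variable {Ω : Type*} [NormedField Ω] [IsUltrametricDist Ω]

/-- the integers -/
def intR (Ω : Type*) [NormedField Ω] [IsUltrametricDist Ω] : Subring Ω where
  carrier := {x | ‖x‖ ≤ 1}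
  mul_mem' := by
    intro a b ha hb
    show ‖a * b‖ ≤ 1
    rw [norm_mul]
    exact mul_le_one₀ ha (norm_nonneg _) hb
  one_mem' := by
    show ‖(1 : Ω)‖ ≤ 1
    simp
  add_mem' := by
    intro a b ha hb
    exact (IsUltrametricDist.norm_add_le_max a b).trans (max_le ha hb)
  zero_mem' := by
    show ‖(0 : Ω)‖ ≤ 1
    simp
  neg_mem' := by
    intro a ha
    show ‖-a‖ ≤ 1
    rw [norm_neg]
    exact ha

/-- the maximal ideal -/
def maxI (Ω : Type*) [NormedField Ω] [IsUltrametricDist Ω] : Ideal (intR Ω) where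
  carrier := {x | ‖(x : Ω)‖ < 1}
  add_mem' := by
    intro a b ha hb
    exact (IsUltrametricDist.norm_add_le_max (a : Ω) (b : Ω)).trans_lt (max_lt ha hb)
  zero_mem' := by
    show ‖((0 : intR Ω) : Ω)‖ < 1
    simp
  smul_mem' := by
    intro c x hx
    show ‖((c * x : intR Ω) : Ω)‖ < 1
    rw [Subring.coe_mul, norm_mul]
    exact mul_lt_one_of_nonneg_of_lt_one_right c.2 (norm_nonneg _) hx

lemma exists_lift (u : Polynomial Ω) (h : ∀ n, ‖u.coeff n‖ ≤ 1) :
    ∃ U : Polynomial (intR Ω), U.map (intR Ω).subtype = u := by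
  have h1 : u ∈ lifts (intR Ω).subtype := by
    rw [lifts_iff_coeff_lifts]
    intro n
    exact ⟨⟨u.coeff n, h n⟩, rfl⟩
  obtain ⟨U, hU⟩ := h1
  exact ⟨U, hU⟩

lemma norm_hev_le (d : ℕ) (u : Polynomial Ω) (h : ∀ n, ‖u.coeff n‖ ≤ 1) (Z : Ω × Ω)
    (hZ : ‖Z‖ ≤ 1) : ‖hev d u Z‖ ≤ 1 := by
  unfold hev
  apply IsUltrametricDist.norm_sum_le_of_forall_le_of_nonneg zero_le_one
  intro i _
  rw [norm_mul, norm_mul, norm_pow, norm_pow]
  have h1 : ‖Z.1‖ ≤ 1 := (norm_fst_le Z).trans hZ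
  have h2 : ‖Z.2‖ ≤ 1 := (norm_snd_le Z).trans hZ
  exact mul_le_one₀ (mul_le_one₀ (h i) (by positivity) (pow_le_one₀ (norm_nonneg _) h1))
    (by positivity) (pow_le_one₀ (norm_nonneg _) h2)

/-- the leading coefficient of a form which is small at a vector close to `(1, 0)` -/
lemma coeff_lt (d : ℕ) (u : Polynomial Ω) (h : ∀ n, ‖u.coeff n‖ ≤ 1) (Z : Ω × Ω)
    (h1 : ‖Z.1‖ = 1) (h2 : ‖Z.2‖ < 1) (hlt : ‖hev d u Z‖ < 1) : ‖u.coeff d‖ < 1 := by
  have h3 : hev d u Z = u.coeff d * Z.1 ^ d +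
      ∑ i ∈ Finset.range d, u.coeff i * Z.1 ^ i * Z.2 ^ (d - i) := by
    unfold hev
    rw [Finset.sum_range_succ, Nat.sub_self, pow_zero, mul_one, add_comm]
  have h4 : ‖∑ i ∈ Finset.range d, u.coeff i * Z.1 ^ i * Z.2 ^ (d - i)‖ ≤ ‖Z.2‖ := by
    apply IsUltrametricDist.norm_sum_le_of_forall_le_of_nonneg (norm_nonneg _)
    intro i hi
    rw [Finset.mem_range] at hi
    rw [norm_mul, norm_mul, norm_pow, norm_pow, h1, one_pow, mul_one]
    calc ‖u.coeff i‖ * ‖Z.2‖ ^ (d - i) ≤ 1 * ‖Z.2‖ ^ 1 := by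
          apply mul_le_mul (h i) _ (by positivity) zero_le_one
          exact pow_le_pow_of_le_one (norm_nonneg _) h2.le (by omega)
      _ = ‖Z.2‖ := by rw [one_mul, pow_one]
  have h5 : u.coeff d * Z.1 ^ d = hev d u Z -
      ∑ i ∈ Finset.range d, u.coeff i * Z.1 ^ i * Z.2 ^ (d - i) := by
    rw [h3]
    ring
  have h6 : ‖u.coeff d‖ = ‖u.coeff d * Z.1 ^ d‖ := by
    rw [norm_mul, norm_pow, h1, one_pow, mul_one]
  rw [h6, h5]
  rw [sub_eq_add_neg]
  refine (IsUltrametricDist.norm_add_le_max _ _).trans_lt (max_lt hlt ?_)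
  rw [norm_neg]
  exact h4.trans_lt h2

/-- A map with good reduction preserves the unit sphere. -/
lemma norm_bF (d : ℕ) (hd : 1 ≤ d) (u v : Polynomial Ω) (hu : u.natDegree ≤ d)
    (hv : v.natDegree ≤ d) (hu1 : ∀ n, ‖u.coeff n‖ ≤ 1) (hv1 : ∀ n, ‖v.coeff n‖ ≤ 1)
    (hres : ‖resultant u v d d‖ = 1) (Z : Ω × Ω) (hZ : ‖Z‖ = 1) : ‖bF d u v Z‖ = 1 := by
  apply le_antisymm
  · unfold bF
    rw [Prod.norm_def]
    exact max_le (norm_hev_le d u hu1 Z hZ.le) (norm_hev_le d v hv1 Z hZ.le)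
  by_contra hlt
  push Not at hlt
  unfold bF at hlt
  rw [Prod.norm_def, max_lt_iff] at hlt
  obtain ⟨hlu, hlv⟩ := hlt
  simp only at hlu hlv
  obtain ⟨U, hU⟩ := exists_lift u hu1
  obtain ⟨V, hV⟩ := exists_lift v hv1
  have hinj : Function.Injective (intR Ω).subtype := Subring.subtype_injective _
  have hUd : U.natDegree ≤ d := by
    rw [← natDegree_map_eq_of_injective hinj, hU]
    exact hu
  have hVd : V.natDegree ≤ d := by
    rw [← natDegree_map_eq_of_injective hinj, hV]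
    exact hv
  have hrr : (intR Ω).subtype (resultant U V d d) = resultant u v d d := by
    rw [← resultant_map_map, hU, hV]
  have h2 : ‖Z.2‖ ≤ 1 := (norm_snd_le Z).trans hZ.le
  have h1 : ‖Z.1‖ ≤ 1 := (norm_fst_le Z).trans hZ.le
  rcases eq_or_lt_of_le h2 with h2 | h2
  · have hZ2 : Z.2 ≠ 0 := by
      intro h
      rw [h, norm_zero] at h2
      exact zero_ne_one h2
    have hz : ‖Z.1 / Z.2‖ ≤ 1 := by
      rw [norm_div, h2, div_one]
      exact h1
    rw [hev_eval d u hu Z hZ2, norm_mul, norm_pow, h2, one_pow, one_mul] at hlu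
    rw [hev_eval d v hv Z hZ2, norm_mul, norm_pow, h2, one_pow, one_mul] at hlv
    obtain ⟨P, R, _, _, hPR⟩ := exists_mul_add_mul_eq_C_resultant U V hUd hVd
      (Or.inl (by omega))
    have e1 : ∀ G : Polynomial (intR Ω), ((G.eval (⟨Z.1 / Z.2, hz⟩ : intR Ω) : intR Ω) : Ω) =
        (G.map (intR Ω).subtype).eval (Z.1 / Z.2) := by
      intro G
      exact (eval_map_apply (f := (intR Ω).subtype) (p := G) (⟨Z.1 / Z.2, hz⟩ : intR Ω)).symm
    have h3 := congrArg (fun g : Polynomial (intR Ω) =>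
      ((g.eval (⟨Z.1 / Z.2, hz⟩ : intR Ω) : intR Ω) : Ω)) hPR
    simp only [eval_add, eval_mul, eval_C, Subring.coe_add, Subring.coe_mul] at h3
    rw [e1 U, e1 V, hU, hV] at h3
    have h4 : ((resultant U V d d : intR Ω) : Ω) = resultant u v d d := hrr
    rw [h4] at h3
    have h5 : ‖resultant u v d d‖ < 1 := by
      rw [← h3]
      refine (IsUltrametricDist.norm_add_le_max _ _).trans_lt (max_lt ?_ ?_)
      · rw [norm_mul]
        exact mul_lt_one_of_nonneg_of_lt_one_left (norm_nonneg _) hlu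
          (show ‖((eval (⟨Z.1 / Z.2, hz⟩ : intR Ω) P : intR Ω) : Ω)‖ ≤ 1 from
            (eval (⟨Z.1 / Z.2, hz⟩ : intR Ω) P).2)
      · rw [norm_mul]
        exact mul_lt_one_of_nonneg_of_lt_one_left (norm_nonneg _) hlv
          (show ‖((eval (⟨Z.1 / Z.2, hz⟩ : intR Ω) R : intR Ω) : Ω)‖ ≤ 1 from
            (eval (⟨Z.1 / Z.2, hz⟩ : intR Ω) R).2)
    exact absurd hres h5.ne
  · have hZ1 : ‖Z.1‖ = 1 := by
      rw [Prod.norm_def] at hZ
      rcases max_choice ‖Z.1‖ ‖Z.2‖ with h | h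
      · rw [← h, hZ]
      · rw [h] at hZ
        exact absurd hZ h2.ne
    have g1 := coeff_lt d u hu1 Z hZ1 h2 hlu
    have g2 := coeff_lt d v hv1 Z hZ1 h2 hlv
    have g3 : ∀ (W : Polynomial (intR Ω)) (w : Polynomial Ω), W.map (intR Ω).subtype = w →
        W.natDegree ≤ d → ‖w.coeff d‖ < 1 →
        (W.map (Ideal.Quotient.mk (maxI Ω))).natDegree < d := by
      intro W w hW hWd hw
      refine lt_of_le_of_ne (natDegree_map_le.trans hWd) ?_
      intro heq
      have h3 : (W.map (Ideal.Quotient.mk (maxI Ω))).coeff d = 0 := by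
        rw [coeff_map, Ideal.Quotient.eq_zero_iff_mem]
        show ‖((W.coeff d : intR Ω) : Ω)‖ < 1
        have h4 : ((W.coeff d : intR Ω) : Ω) = w.coeff d := by
          rw [← hW, coeff_map]
          rfl
        rw [h4]
        exact hw
      by_cases h0 : W.map (Ideal.Quotient.mk (maxI Ω)) = 0
      · rw [h0, natDegree_zero] at heq
        omega
      · apply leadingCoeff_ne_zero.mpr h0
        unfold leadingCoeff
        rw [heq]
        exact h3
    have g4 := resultant_eq_zero_of_lt_lt _ _ d d (g3 U u hU hUd g1) (g3 V v hV hVd g2)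
    rw [resultant_map_map, Ideal.Quotient.eq_zero_iff_mem] at g4
    have g5 : ‖((resultant U V d d : intR Ω) : Ω)‖ < 1 := g4
    have h4 : ((resultant U V d d : intR Ω) : Ω) = resultant u v d d := hrr
    rw [h4] at g5
    exact absurd hres g5.ne

end Norm

section Mob

variable {Ω : Type*} [NormedField Ω] [IsUltrametricDist Ω]

/-- the linear map with matrix `(a, b; c, e)` -/
def mob {F : Type*} [Field F] (a b c e : F) (X : F × F) : F × F :=
  (a * X.1 + b * X.2, c * X.1 + e * X.2)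

lemma mob_smul {F : Type*} [Field F] (a b c e t : F) (X : F × F) :
    mob a b c e (t • X) = t • mob a b c e X := by
  unfold mob
  ext <;> simp only [Prod.smul_fst, Prod.smul_snd, smul_eq_mul] <;> ring

lemma wd_mob {F : Type*} [Field F] (a b c e : F) (X Y : F × F) :
    wd (mob a b c e X) (mob a b c e Y) = (a * e - b * c) * wd X Y := by
  unfold mob wd
  ring

/-- The reduction data: `(u, v)` of degree `d` with good reduction, conjugate to `(p, q)`. -/
def PGF {K : Type*} [Field K] (ι : K →+* Ω) (p q : Polynomial K) (d : ℕ) : Prop :=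
  ∃ a b c e s : Ω, a * e - b * c ≠ 0 ∧ s ≠ 0 ∧ ∃ u v : Polynomial Ω, u.natDegree ≤ d ∧
    v.natDegree ≤ d ∧ (∀ n, ‖u.coeff n‖ ≤ 1) ∧ (∀ n, ‖v.coeff n‖ ≤ 1) ∧
    ‖resultant u v d d‖ = 1 ∧
    ∀ X : Ω × Ω, bF d u v (mob a b c e X) = s • mob a b c e (bF d (p.map ι) (q.map ι) X)

variable {K : Type u} [Field K]

/-- The resultant inequality. -/
lemma res_ineq [IsAlgClosed Ω] (B : Fam Ω) (ι : K →+* Ω) (p q : Polynomial K) (d : ℕ)
    (hd : 2 ≤ d) (hp : p.natDegree ≤ d) (hq : q.natDegree = d) (hco : IsCoprime p q)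
    {a b c e s : Ω} (hdet : a * e - b * c ≠ 0) (hs : s ≠ 0) {u v : Polynomial Ω}
    (hu : u.natDegree ≤ d) (hv : v.natDegree ≤ d) (hu1 : ∀ n, ‖u.coeff n‖ ≤ 1)
    (hv1 : ∀ n, ‖v.coeff n‖ ≤ 1) (hres : ‖resultant u v d d‖ = 1)
    (hF : ∀ X : Ω × Ω, bF d u v (mob a b c e X) =
      s • mob a b c e (bF d (p.map ι) (q.map ι) X)) :
    0 ≤ -Real.log ‖ι (resultant q p d d)‖ + (d * ((d : ℝ) - 1)) * Real.log ‖a * e - b * c‖ -
      2 * d * Real.log ‖s‖ := by
  have hco' : IsCoprime (p.map ι) (q.map ι) := hco.map (mapRingHom ι)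
  obtain ⟨S₀, hS₀F, hS₀d, hS₀R⟩ := exists_base d (p.map ι) (q.map ι)
    (natDegree_map_le.trans hp) (by rw [natDegree_map]; exact hq) (by omega) hco'
  set Δ := a * e - b * c with hΔ
  set U : Ω × Ω := (e / Δ, -c / Δ) with hU
  set V : Ω × Ω := (-b / Δ, a / Δ) with hV
  have hwd : wd U V = Δ⁻¹ := by
    unfold wd
    simp only [hU, hV]
    field_simp
    rw [hΔ]
    ring
  have hwd0 : wd U V ≠ 0 := by
    rw [hwd]
    exact inv_ne_zero hdet
  have hgi : ∀ W : Ω × Ω, gi U V W = mob a b c e W := by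
    intro W
    unfold gi
    rw [hwd, inv_inv]
    unfold wd mob
    simp only [hU, hV]
    ext
    · simp only
      field_simp
      ring
    · simp only
      field_simp
      ring
  set S' := S₀.conj U V hwd0 s hs with hS'
  have hS'F : ∀ Z, S'.F Z = bF d u v Z := by
    intro Z
    have h1 : S'.F Z = s • gi U V (S₀.F (gm U V Z)) := rfl
    rw [h1, hgi, hS₀F, ← hF, ← hgi, gi_gm hwd0]
  have hgs : S'.gs ≤ 1 := by
    obtain ⟨E, hE⟩ := HS.gs_attained (S := S') B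
    obtain ⟨i, hi⟩ := Infinite.exists_notMem_finset E
    rw [← hE i hi, hS'F]
    exact (norm_bF d (by omega) u v hu hv hu1 hv1 hres _ (B.unit i)).le
  have h2 := HS.Res_nonneg (S := S') B hgs
  have h3 : S'.Res = S₀.Res - (S₀.d * ((S₀.d : ℝ) - 1)) * Real.log ‖wd U V‖ -
      2 * S₀.d * Real.log ‖s‖ := rfl
  rw [h3, hwd, norm_inv, Real.log_inv, hS₀d] at h2
  have h4 : S₀.Res = -Real.log ‖ι (resultant q p d d)‖ := by
    have h5 := congrArg Real.log hS₀R
    rw [Real.log_exp, resultant_map_map] at h5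
    linarith
  rw [h4] at h2
  linarith

/-- norm of the image of a vector -/
lemma norm_bF_all (d : ℕ) (hd : 1 ≤ d) (u v : Polynomial Ω) (hu : u.natDegree ≤ d)
    (hv : v.natDegree ≤ d) (hu1 : ∀ n, ‖u.coeff n‖ ≤ 1) (hv1 : ∀ n, ‖v.coeff n‖ ≤ 1)
    (hres : ‖resultant u v d d‖ = 1) (Z : Ω × Ω) (hZ : Z ≠ 0) : ‖bF d u v Z‖ = ‖Z‖ ^ d := by
  obtain ⟨t, W, ht, hW, hZW, htn⟩ := exists_unit Z hZ
  rw [hZW, bF_hom, norm_smul, norm_smul, norm_pow, hW,
    norm_bF d hd u v hu hv hu1 hv1 hres W hW]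
  ring

variable {k : Type*} [Field k] [Algebra k K] [DecidableEq K]

/-- At a place of potentially good reduction the Green function is nonnegative. -/
theorem GG_nonneg [IsAlgClosed Ω] (Q : PlaceData k K) (v₀ : Q.Pl) (B : Fam Ω) (ι : K →+* Ω)
    (C₀ : ℝ) (hC₀ : 0 < C₀)
    (hι : ∀ x : K, x ≠ 0 → -Real.log ‖ι x‖ = C₀ * Q.ord v₀ x) (p q : Polynomial K) (d : ℕ)
    (hd : 2 ≤ d) (hp : p.natDegree ≤ d) (hq : q.natDegree = d) (hco : IsCoprime p q)
    (P : Finset K) (hP : ∀ z ∈ P, q.eval z ≠ 0 ∧ p.eval z / q.eval z ∈ P) (a : K → ℝ)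
    (ha : ∀ z ∈ P, (d : ℝ) * a z = Q.ord v₀ (q.eval z) + a (p.eval z / q.eval z)) (ρ : ℝ)
    (hρ : ρ = (Q.ord v₀ (resultant q p d d) : ℝ) / (d * ((d : ℝ) - 1)))
    (hres0 : resultant q p d d ≠ 0) (hG : PGF ι p q d) :
    ∀ x ∈ P, ∀ y ∈ P, x ≠ y → 0 ≤ GG Q v₀ a ρ x y := by
  obtain ⟨α, β, γ, ε, s, hdet, hs, u, v, hu, hv, hu1, hv1, hres, hF⟩ := hG
  have hdR : (2 : ℝ) ≤ d := by exact_mod_cast hd
  have hineq := res_ineq B ι p q d hd hp hq hco hdet hs hu hv hu1 hv1 hres hF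
  rw [hι _ hres0] at hineq
  set Δ := α * ε - β * γ with hΔ
  set σ := Real.log ‖s‖ / ((d : ℝ) - 1) with hσ
  have hd1 : (0 : ℝ) < (d : ℝ) - 1 := by linarith
  set Φ : K → Ω × Ω := fun z => mob α β γ ε (ι z, 1) with hΦ
  have hΦ0 : ∀ z, Φ z ≠ 0 := by
    intro z h0
    have h1 := wd_mob α β γ ε (ι z, 1) (1, 0)
    have h2 : mob α β γ ε (ι z, 1) = 0 := h0
    rw [h2] at h1
    have h3 : wd ((0 : Ω × Ω)) (mob α β γ ε (1, 0)) = 0 := by
      unfold wd
      simp
    rw [h3] at h1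
    have h4 : wd ((ι z, 1) : Ω × Ω) (1, 0) = -1 := by
      unfold wd
      simp
    rw [h4] at h1
    apply hdet
    linear_combination h1
  set Λ : K → ℝ := fun z => -Real.log ‖Φ z‖ with hΛ
  have hstep : ∀ z ∈ P, (d : ℝ) * Λ z = -Real.log ‖s‖ + C₀ * Q.ord v₀ (q.eval z) +
      Λ (p.eval z / q.eval z) := by
    intro z hz
    have hqz := (hP z hz).1
    have hιq : ι (q.eval z) ≠ 0 := (map_ne_zero ι).mpr hqz
    have h1 := hF (ι z, 1)
    have h2 : bF d (p.map ι) (q.map ι) (ι z, 1) =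
        ι (q.eval z) • ((ι (p.eval z / q.eval z), 1) : Ω × Ω) := by
      unfold bF
      rw [hev_one d _ (natDegree_map_le.trans hp), hev_one d _ (natDegree_map_le.trans hq.le),
        eval_map_apply, eval_map_apply]
      ext
      · simp only [Prod.smul_fst, smul_eq_mul]
        rw [← map_mul, mul_div_cancel₀ _ hqz]
      · simp only [Prod.smul_snd, smul_eq_mul, mul_one]
    rw [h2, mob_smul] at h1
    have h3 := congrArg norm h1
    have h4 : mob α β γ ε (ι z, 1) = Φ z := rfl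
    have h5 : mob α β γ ε (ι (p.eval z / q.eval z), 1) = Φ (p.eval z / q.eval z) := rfl
    rw [h4, h5, norm_bF_all d (by omega) u v hu hv hu1 hv1 hres _ (hΦ0 z), norm_smul,
      norm_smul] at h3
    have h6 := congrArg Real.log h3
    rw [Real.log_pow, Real.log_mul (norm_ne_zero_iff.mpr hs)
      (mul_ne_zero (norm_ne_zero_iff.mpr hιq) (norm_ne_zero_iff.mpr (hΦ0 _))),
      Real.log_mul (norm_ne_zero_iff.mpr hιq) (norm_ne_zero_iff.mpr (hΦ0 _))] at h6
    have h7 := hι _ hqz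
    simp only [hΛ]
    linarith
  have hA : ∀ z ∈ P, C₀ * a z - Λ z - σ = 0 := by
    apply stable_zero d hd P (fun z => p.eval z / q.eval z) (fun z hz => (hP z hz).2)
      (fun z => C₀ * a z - Λ z - σ)
    intro z hz
    have h1 := hstep z hz
    have h2 := ha z hz
    have h3 : ((d : ℝ) - 1) * σ = Real.log ‖s‖ := by
      rw [hσ]
      field_simp
    linear_combination C₀ * h2 - h1 - h3
  intro x hx y hy hxy
  have hxy' : x - y ≠ 0 := sub_ne_zero.mpr hxy
  have h1 := norm_wd_le (Φ x) (Φ y)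
  have h2 : wd (Φ x) (Φ y) = Δ * ι (x - y) := by
    simp only [hΦ]
    rw [wd_mob]
    unfold wd
    simp only [mul_one, one_mul, map_sub]
    rfl
  rw [h2, norm_mul] at h1
  have hιxy : ι (x - y) ≠ 0 := (map_ne_zero ι).mpr hxy'
  have h3 := Real.log_le_log (mul_pos (norm_pos_iff.mpr hdet) (norm_pos_iff.mpr hιxy)) h1
  rw [Real.log_mul (norm_ne_zero_iff.mpr hdet) (norm_ne_zero_iff.mpr hιxy),
    Real.log_mul (norm_ne_zero_iff.mpr (hΦ0 x)) (norm_ne_zero_iff.mpr (hΦ0 y))] at h3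
  have h4 := hι _ hxy'
  have h5 := hA x hx
  have h6 := hA y hy
  have h7 : 0 ≤ C₀ * ρ + Real.log ‖Δ‖ - 2 * σ := by
    have h8 : C₀ * ρ + Real.log ‖Δ‖ - 2 * σ =
        (C₀ * Q.ord v₀ (resultant q p d d) + d * ((d : ℝ) - 1) * Real.log ‖Δ‖ -
          2 * d * Real.log ‖s‖) / (d * ((d : ℝ) - 1)) := by
      rw [hρ, hσ]
      field_simp
    rw [h8]
    exact div_nonneg hineq (by positivity)
  have h9 : 0 ≤ C₀ * GG Q v₀ a ρ x y := by
    unfold GG
    simp only [hΛ] at h5 h6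
    have e : C₀ * ((Q.ord v₀ (x - y) : ℝ) - a x - a y + ρ) = C₀ * Q.ord v₀ (x - y) -
        C₀ * a x - C₀ * a y + C₀ * ρ := by ring
    rw [e]
    linarith
  exact nonneg_of_mul_nonneg_right h9 hC₀

end Mob

end Pool.Agent.R829.FB
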