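import Pool.Agent.TH951.W.UB.Gen

/-!
# Place data with inequivalent places
-/

namespace Pool.Agent.R829.FB

open Pool.Agent.TH951.W.UB Polynomial IsDedekindDomain HeightOneSpectrum

universe w

/-- Existence of chart data, with more information. -/
lemma exists_chartData' (R F : Type*) (K : Type w) [CommRing R] [IsDomain R]
    [IsPrincipalIdealRing R] [Field F] [Algebra R F] [IsFractionRing R F] [Field K] [Algebra F K]
    [FiniteDimensional F K] [Algebra.IsSeparable F K] (l : F → ℤ)
    (hl : AddFn R l) (hpos : ∀ r : R, r ≠ 0 → ¬ IsUnit r → 1 ≤ l (algebraMap R F r)) :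
    ∃ c : ChartData.{w} R F K l 0, (∀ v, ∀ r : R, r ≠ 0 →
      0 ≤ c.ord v (algebraMap F K (algebraMap R F r))) ∧
      (∀ v, ∃ r : R, r ≠ 0 ∧ 0 < c.ord v (algebraMap F K (algebraMap R F r))) ∧
      ∀ v v', (∀ x : K, x ≠ 0 → (0 ≤ c.ord v x ↔ 0 ≤ c.ord v' x)) → v = v' := by
  letI : Algebra R K := ((algebraMap F K).comp (algebraMap R F)).toAlgebra
  haveI : IsScalarTower R F K := IsScalarTower.of_algebraMap_eq' rfl
  let S := integralClosure R K
  haveI : IsFractionRing S K := IsIntegralClosure.isFractionRing_of_finite_extension R F K S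
  haveI : IsDedekindDomain S := IsIntegralClosure.isDedekindDomain R F K S
  haveI : Module.Finite R S := IsIntegralClosure.finite R F K S
  have hinjRK : Function.Injective (algebraMap R K) :=
    (algebraMap F K).injective.comp (IsFractionRing.injective R F)
  have hinjRS : Function.Injective (algebraMap R S) := by
    intro a b hab
    apply hinjRK
    rw [IsScalarTower.algebraMap_apply R S K, IsScalarTower.algebraMap_apply R S K, hab]
  haveI : FaithfulSMul R S := (faithfulSMul_iff_algebraMap_injective R S).mpr hinjRS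
  haveI : Module.IsTorsionFree R S := inferInstance
  have hRSK : ∀ r : R, algebraMap F K (algebraMap R F r) = algebraMap S K (algebraMap R S r) := by
    intro r
    rw [← IsScalarTower.algebraMap_apply R S K, ← IsScalarTower.algebraMap_apply R F K]
  have hRS0 : ∀ r : R, r ≠ 0 → algebraMap R S r ≠ 0 := by
    intro r hr h
    apply hr
    apply hinjRS
    rw [h, map_zero]
  refine ⟨{
    Pl := HeightOneSpectrum S
    ord := fun P x => ordP P x
    wt := fun P => wtI R l P.asIdeal
    wt_one := fun P => wtI_pos hpos P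
    ord_mul := fun P x y hx hy => ordP_mul P hx hy
    ord_add := fun P x y m hx hy hxy h1 h2 => ordP_add P m hx hy hxy h1 h2
    ord_unit := by
      intro P u hu
      have h1 := ordP_unit (K := K) P (hu.map (algebraMap R S)).unit
      rw [IsUnit.unit_spec, ← IsScalarTower.algebraMap_apply R S K] at h1
      exact h1
    fin := fun x hx => finite_ordP x hx
    sum := fun x hx T hT => sum_ordP hl x hx T hT
    integral := by
      intro x hx h n
      obtain ⟨s, hs⟩ := exists_of_ordP_nonneg (S := S) x hx h
      have h1 : IsIntegral R x := by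
        rw [← hs]
        exact s.2
      have h2 := minpoly.isIntegrallyClosed_eq_field_fractions' F h1
      refine ⟨(minpoly R x).coeff n, ?_⟩
      rw [h2, Polynomial.coeff_map]
    dl := fun _ => 0
    dl_nonneg := fun _ => le_rfl
    dl_fin := by simp
    deriv := fun P x hx hD => absurd rfl hD }, ?_, ?_, ?_⟩
  · intro P r hr
    show 0 ≤ ordP P _
    rw [hRSK]
    exact ordP_alg_nonneg P (hRS0 r hr)
  · intro P
    have h1 : Ideal.comap (algebraMap R S) P.asIdeal ≠ ⊥ := by
      intro h0
      exact P.ne_bot (Ideal.eq_bot_of_comap_eq_bot h0)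
    obtain ⟨r, hr, hr0⟩ := Submodule.exists_mem_ne_zero_of_ne_bot h1
    refine ⟨r, hr0, ?_⟩
    show 0 < ordP P _
    rw [hRSK]
    have h2 : ((1 : ℕ) : ℤ) ≤ ordP P (algebraMap S K (algebraMap R S r)) := by
      rw [le_ordP_alg_iff P (hRS0 r hr0), pow_one]
      exact hr
    push_cast at h2
    linarith
  · intro P P' h
    by_contra hne
    have hne' : P.asIdeal ≠ P'.asIdeal := fun h' => hne (HeightOneSpectrum.ext h')
    have hmax : P.asIdeal.IsMaximal := P.isMaximal
    have hmax' : P'.asIdeal.IsMaximal := P'.isMaximal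
    have h1 : ¬ P.asIdeal ≤ P'.asIdeal := fun h' => hne' (hmax.eq_of_le hmax'.ne_top h')
    have h2 : ¬ P'.asIdeal ≤ P.asIdeal := fun h' => hne' (hmax'.eq_of_le hmax.ne_top h').symm
    obtain ⟨s, hs, hs'⟩ := Set.not_subset.mp h1
    obtain ⟨s', ht, ht'⟩ := Set.not_subset.mp h2
    have hs0 : s ≠ 0 := by
      rintro rfl
      exact hs' P'.asIdeal.zero_mem
    have ht0 : s' ≠ 0 := by
      rintro rfl
      exact ht' P.asIdeal.zero_mem
    have hs0' : algebraMap S K s ≠ 0 := by
      rw [Ne, map_eq_zero_iff _ (IsFractionRing.injective S K)]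
      exact hs0
    have ht0' : algebraMap S K s' ≠ 0 := by
      rw [Ne, map_eq_zero_iff _ (IsFractionRing.injective S K)]
      exact ht0
    have key : ∀ (Q : HeightOneSpectrum S) (x : S), x ≠ 0 →
        (x ∈ Q.asIdeal ↔ 1 ≤ ordP Q (algebraMap S K x)) := by
      intro Q x hx
      have h3 := le_ordP_alg_iff (K := K) Q hx 1
      rw [pow_one] at h3
      rw [← h3]
      push_cast
      rfl
    have a1 := (key P s hs0).mp hs
    have a2 := (key P' s' ht0).mp ht
    have a3 : ¬ (1 ≤ ordP P' (algebraMap S K s)) := fun h' => hs' ((key P' s hs0).mpr h')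
    have a4 : ¬ (1 ≤ ordP P (algebraMap S K s')) := fun h' => ht' ((key P s' ht0).mpr h')
    have h5 := h (algebraMap S K s' / algebraMap S K s) (div_ne_zero ht0' hs0')
    simp only [ordP_div P ht0' hs0', ordP_div P' ht0' hs0'] at h5
    have a5 := ordP_alg_nonneg (K := K) P ht0
    have h6 := h5.mpr (by omega)
    omega

section Gen

variable (k : Type*) (K : Type w) [Field k] [Field K] [Algebra k K]
  [Algebra (RatFunc k) K] [IsScalarTower k (RatFunc k) K] [FiniteDimensional (RatFunc k) K]
  [Algebra.IsSeparable (RatFunc k) K]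

/-- Place data with inequivalent places, for a function field in which `k` is algebraically
closed. -/
theorem exists_pd (halg : ∀ x : K, IsAlgebraic k x → ∃ c : k, algebraMap k K c = x) :
    ∃ Q : PlaceData.{w} k K, (∀ v, ∃ x : K, x ≠ 0 ∧ Q.ord v x ≠ 0) ∧
      ∀ v v' : Q.Pl, (∀ x : K, x ≠ 0 → (0 ≤ Q.ord v x ↔ 0 ≤ Q.ord v' x)) → v = v' := by
  classical
  obtain ⟨c1, hc1a, hc1b, hc1c⟩ := exists_chartData' k[X] (RatFunc k) K (fun x => x.intDegree)
    (addFn_poly k) (pos_poly k)
  obtain ⟨c2, hc2a, hc2b, hc2c⟩ := exists_chartData' (InfRing k) (RatFunc k) K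
    (fun x => -x.intDegree) (addFn_inf k) (pos_inf k)
  have hconst : ∀ x : K, x ≠ 0 → (∀ v, 0 ≤ c1.ord v x) → (∀ v, 0 ≤ c2.ord v x) →
      ∃ c : k, algebraMap k K c = x := by
    intro x hx h1 h2
    apply halg
    apply alg_of_coeff k K x (Algebra.IsIntegral.isIntegral x)
    intro n
    apply const_of_both k
    · exact c1.integral x hx h1 n
    · obtain ⟨r, hr⟩ := c2.integral x hx h2 n
      rw [← hr]
      exact r.2
  have hinj : Function.Injective (algebraMap (RatFunc k) K) := (algebraMap (RatFunc k) K).injective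
  have hX0 : (algebraMap k[X] (RatFunc k) X) ≠ 0 := by
    rw [Ne, map_eq_zero_iff _ (RatFunc.algebraMap_injective k)]
    exact X_ne_zero
  set t : K := algebraMap (RatFunc k) K (algebraMap k[X] (RatFunc k) X) with ht
  have ht0 : t ≠ 0 := by
    rw [ht, _root_.map_ne_zero]
    exact hX0
  have ht1 : ∀ v, 0 ≤ c1.ord v t := fun v => hc1a v X X_ne_zero
  have ht2 : ∀ v, c2.ord v t < 0 := by
    intro v
    obtain ⟨r, hr0, hr⟩ := hc2b v
    have hr0' : (r : RatFunc k) ≠ 0 := by
      intro h
      exact hr0 (Subtype.ext h)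
    have h1 := (mem_infRing k).mp r.2
    rw [or_iff_right hr0'] at h1
    obtain ⟨m, hm⟩ := Int.eq_ofNat_of_zero_le (neg_nonneg.mpr h1)
    -- `r * t ^ m` is a unit
    have hd : ((r : RatFunc k) * (algebraMap k[X] (RatFunc k) X) ^ m).intDegree = 0 := by
      rw [RatFunc.intDegree_mul hr0' (pow_ne_zero _ hX0)]
      have h3 : ((algebraMap k[X] (RatFunc k) X) ^ m).intDegree = m := by
        rw [← map_pow, RatFunc.intDegree_polynomial, natDegree_X_pow]
      rw [h3]
      omega
    set y : RatFunc k := (r : RatFunc k) * (algebraMap k[X] (RatFunc k) X) ^ m with hy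
    have hy0 : y ≠ 0 := mul_ne_zero hr0' (pow_ne_zero _ hX0)
    have hy1 : y ∈ InfRing k := by
      rw [mem_infRing]
      right
      exact hd.le
    have hy2 : y⁻¹ ∈ InfRing k := by
      rw [mem_infRing]
      right
      rw [RatFunc.intDegree_inv, hd, neg_zero]
    have hunit : IsUnit (⟨y, hy1⟩ : InfRing k) := by
      refine IsUnit.of_mul_eq_one ⟨y⁻¹, hy2⟩ ?_
      apply Subtype.ext
      rw [MulMemClass.coe_mul]
      exact mul_inv_cancel₀ hy0
    have h4 := c2.ord_unit v _ hunit
    have h5 : algebraMap (RatFunc k) K (algebraMap (InfRing k) (RatFunc k) ⟨y, hy1⟩) =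
        algebraMap (RatFunc k) K r * t ^ m := by
      rw [ValuationSubring.algebraMap_apply, ht, ← map_pow, ← map_mul]
    have hrK : algebraMap (RatFunc k) K r ≠ 0 := by
      rw [_root_.map_ne_zero]
      exact hr0'
    have hpow : ∀ n : ℕ, c2.ord v (t ^ n) = n * c2.ord v t := by
      intro n
      induction n with
      | zero =>
        have h6 := c2.ord_mul v 1 1 one_ne_zero one_ne_zero
        rw [mul_one] at h6
        rw [pow_zero]
        push_cast
        linarith
      | succ n ih =>
        rw [pow_succ, c2.ord_mul v _ _ (pow_ne_zero _ ht0) ht0, ih]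
        push_cast
        ring
    rw [h5, c2.ord_mul v _ _ hrK (pow_ne_zero _ ht0), hpow] at h4
    have h6 : 0 < c2.ord v (algebraMap (RatFunc k) K r) := hr
    by_contra hcon
    push Not at hcon
    have h7 : 0 ≤ (m : ℤ) * c2.ord v t := mul_nonneg (Int.natCast_nonneg m) hcon
    linarith
  let ord : c1.Pl ⊕ c2.Pl → K → ℤ := Sum.elim c1.ord c2.ord
  let wt : c1.Pl ⊕ c2.Pl → ℤ := Sum.elim c1.wt c2.wt
  have hwt1 : ∀ v, 1 ≤ wt v := by
    rintro (v | v)
    · exact c1.wt_one v
    · exact c2.wt_one v
  have hD : ∀ (x : K) (j : ℕ), ((0 : Derivation k K K)^[j]) x ≠ 0 → j = 0 := by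
    intro x j hj
    rcases j with _ | j
    · rfl
    · exfalso
      apply hj
      rw [Function.iterate_succ_apply']
      rfl
  refine ⟨{
    Pl := c1.Pl ⊕ c2.Pl
    ord := ord
    wt := wt
    wt_nonneg := fun v => zero_le_one.trans (hwt1 v)
    wt_one := hwt1
    ord_mul := by
      rintro (v | v) x y hx hy
      · exact c1.ord_mul v x y hx hy
      · exact c2.ord_mul v x y hx hy
    ord_add := by
      rintro (v | v) x y m hx hy hxy h1 h2
      · exact c1.ord_add v x y m hx hy hxy h1 h2
      · exact c2.ord_add v x y m hx hy hxy h1 h2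
    ord_alg := by
      rintro (v | v) c hc
      · have h1 := c1.ord_unit v (C c) (isUnit_C.mpr (isUnit_iff_ne_zero.mpr hc))
        rw [IsScalarTower.algebraMap_apply k (RatFunc k) K]
        rw [RatFunc.algebraMap_C] at h1
        exact h1
      · obtain ⟨u, hu, hu'⟩ := isUnit_inf k c hc
        have h1 := c2.ord_unit v u hu
        rw [ValuationSubring.algebraMap_apply, hu', ← IsScalarTower.algebraMap_apply] at h1
        exact h1
    fin := by
      intro x hx
      have h1 : {v | ord v x ≠ 0} ⊆
          Sum.inl '' {v | c1.ord v x ≠ 0} ∪ Sum.inr '' {v | c2.ord v x ≠ 0} := by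
        rintro (v | v) hv
        · left
          exact ⟨v, hv, rfl⟩
        · right
          exact ⟨v, hv, rfl⟩
      exact (((c1.fin x hx).image _).union ((c2.fin x hx).image _)).subset h1
    prod_formula := by
      intro x hx S hS
      set T1 := S.toLeft ∪ (c1.fin x hx).toFinset with hT1
      set T2 := S.toRight ∪ (c2.fin x hx).toFinset with hT2
      have h1 := c1.sum x hx T1 (by
        intro v hv
        by_contra h
        exact hv (by simp [hT1, h]))
      have h2 := c2.sum x hx T2 (by
        intro v hv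
        by_contra h
        exact hv (by simp [hT2, h]))
      have h3 : ∑ v ∈ T1.disjSum T2, wt v * ord v x = 0 := by
        rw [Finset.sum_disjSum]
        have h4 : ∑ v ∈ T1, wt (Sum.inl v) * ord (Sum.inl v) x = ∑ v ∈ T1, c1.wt v * c1.ord v x :=
          rfl
        have h5 : ∑ v ∈ T2, wt (Sum.inr v) * ord (Sum.inr v) x = ∑ v ∈ T2, c2.wt v * c2.ord v x :=
          rfl
        rw [h4, h5, h1, h2]
        ring
      have hST : S ⊆ T1.disjSum T2 := by
        rintro (v | v) hv
        · rw [Finset.inl_mem_disjSum]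
          simp [hT1, hv]
        · rw [Finset.inr_mem_disjSum]
          simp [hT2, hv]
      rw [← Finset.sum_sdiff hST] at h3
      have h6 : 0 ≤ ∑ v ∈ T1.disjSum T2 \ S, wt v * ord v x :=
        Finset.sum_nonneg fun v hv => mul_nonneg (zero_le_one.trans (hwt1 v))
          (hS v (Finset.mem_sdiff.mp hv).2)
      linarith
    const := by
      intro x hx h
      exact hconst x hx (fun v => h (Sum.inl v)) (fun v => h (Sum.inr v))
    D := 0
    loss := fun _ => 0
    loss_nonneg := fun _ => le_rfl
    lossS := ∅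
    loss_supp := fun _ _ => rfl
    lossT := 0
    loss_sum := by simp
    D_ord := by
      intro v x j m _ h1 h2
      have h3 := hD x j h1
      subst h3
      simpa using h2
    D_ord' := by
      intro v x j _ h1 h2
      have h3 := hD x j h1
      subst h3
      simpa using h2 }, ?_, ?_⟩
  · rintro (v | v)
    · obtain ⟨r, hr0, hr⟩ := hc1b v
      refine ⟨_, ?_, hr.ne'⟩
      rw [_root_.map_ne_zero, Ne, map_eq_zero_iff _ (IsFractionRing.injective k[X] (RatFunc k))]
      exact hr0
    · exact ⟨t, ht0, (ht2 v).ne⟩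
  · rintro (v | v) (v' | v') h
    · rw [hc1c v v' h]
    · exfalso
      have h1 := (h t ht0).mp (ht1 v)
      have h2 : c2.ord v' t < 0 := ht2 v'
      exact absurd h2 (not_lt.mpr h1)
    · exfalso
      have h1 := (h t ht0).mpr (ht1 v')
      have h2 : c2.ord v t < 0 := ht2 v
      exact absurd h2 (not_lt.mpr h1)
    · rw [hc2c v v' h]

end Gen

end Pool.Agent.R829.FB
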