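import Pool.Agent.R829.FB.Loc

/-!
# Changing coordinates
-/

namespace Pool.Agent.R829.FB

open Pool.Agent.TH951.W.UB Pool.Agent.TH951.W.UG Pool.Agent.TH951.W.UH Finset Polynomial

universe u

variable {K : Type u} [Field K]

lemma hev_pc (d : ℕ) (g : Polynomial K) (hg : g.natDegree ≤ d) (c : K) (Y : K × K) :
    hev d (pc d g c) Y = hev d g (c * Y.1 + Y.2, Y.1) := by
  by_cases hY : Y.2 = 0
  · have h1 : Y = (Y.1, 0) := Prod.ext rfl hY
    rw [h1, hev_zero, pc_coeff d g hg]
    have h2 : ((c * (Y.1, (0 : K)).1 + (Y.1, (0 : K)).2, (Y.1, (0 : K)).1) : K × K) =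
        Y.1 • ((c, 1) : K × K) := by
      ext
      · simp only [Prod.smul_fst, smul_eq_mul]
        ring
      · simp
    rw [h2, hev_smul, hev_one d g hg]
    ring
  · rw [hev_eval d _ (pc_degree d g c) Y hY, pc_eval, ← hev_smul]
    congr 1
    ext
    · simp only [Prod.smul_fst, smul_eq_mul]
      field_simp
    · simp only [Prod.smul_snd, smul_eq_mul]
      field_simp

lemma pc_map {L : Type*} [Field L] (φ : K →+* L) (d : ℕ) (g : Polynomial K) (c : K) :
    (pc d g c).map φ = pc d (g.map φ) (φ c) := by
  unfold pc hc hev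
  rw [Polynomial.map_sum]
  apply Finset.sum_congr rfl
  intro i _
  simp

variable {Ω : Type*} [NormedField Ω] [IsUltrametricDist Ω]

/-- moving the point `c` to infinity -/
lemma PGF_pc (ι : K →+* Ω) (p q : Polynomial K) (d : ℕ) (hp : p.natDegree ≤ d)
    (hq : q.natDegree ≤ d) (c₀ : K) (h : PGF ι p q d) :
    PGF ι (pc d q c₀) (pc d (p - C c₀ * q) c₀) d := by
  obtain ⟨a, b, c, e, s, hdet, hs, u, v, hu, hv, hu1, hv1, hres, hF⟩ := h
  refine ⟨a * ι c₀ + b, a, c * ι c₀ + e, c, s, ?_, hs, u, v, hu, hv, hu1, hv1, hres, ?_⟩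
  · intro h0
    apply hdet
    linear_combination -h0
  · intro Y
    have hpq : (p - C c₀ * q).natDegree ≤ d :=
      (natDegree_sub_le _ _).trans (max_le hp ((natDegree_C_mul_le _ _).trans hq))
    have h1 := hF (ι c₀ * Y.1 + Y.2, Y.1)
    have h2 : mob (a * ι c₀ + b) a (c * ι c₀ + e) c Y =
        mob a b c e (ι c₀ * Y.1 + Y.2, Y.1) := by
      unfold mob
      ext <;> simp only <;> ring
    rw [h2, h1]
    congr 1
    rw [pc_map, pc_map]
    unfold bF
    rw [hev_pc d _ (natDegree_map_le.trans hq), hev_pc d _ (natDegree_map_le.trans hpq)]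
    have h3 : ∀ Z : Ω × Ω, hev d ((p - C c₀ * q).map ι) Z =
        hev d (p.map ι) Z - ι c₀ * hev d (q.map ι) Z := by
      intro Z
      unfold hev
      rw [Finset.mul_sum, ← Finset.sum_sub_distrib]
      apply Finset.sum_congr rfl
      intro i _
      simp only [Polynomial.map_sub, Polynomial.map_mul, map_C, coeff_sub, coeff_C_mul]
      ring
    rw [h3]
    unfold mob
    ext <;> simp only <;> ring

/-- from polynomial identities to homogeneous maps -/
lemma PGF_of_poly (ι : K →+* Ω) (p q : Polynomial K) (d : ℕ) (hp : p.natDegree ≤ d)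
    (hq : q.natDegree ≤ d) {a b c e s : Ω} (hdet : a * e - b * c ≠ 0) (hs : s ≠ 0)
    {u v : Polynomial Ω} (hu : u.natDegree ≤ d) (hv : v.natDegree ≤ d)
    (hu1 : ∀ n, ‖u.coeff n‖ ≤ 1) (hv1 : ∀ n, ‖v.coeff n‖ ≤ 1) (hres : ‖resultant u v d d‖ = 1)
    (h1 : ∑ i ∈ Finset.range (d + 1), C (u.coeff i) * (C a * X + C b) ^ i *
      (C c * X + C e) ^ (d - i) = C s * (C a * p.map ι + C b * q.map ι))
    (h2 : ∑ i ∈ Finset.range (d + 1), C (v.coeff i) * (C a * X + C b) ^ i *
      (C c * X + C e) ^ (d - i) = C s * (C c * p.map ι + C e * q.map ι)) : PGF ι p q d := by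
  refine ⟨a, b, c, e, s, hdet, hs, u, v, hu, hv, hu1, hv1, hres, ?_⟩
  have key : ∀ (w : Polynomial Ω) (m n : Ω), ∑ i ∈ Finset.range (d + 1), C (w.coeff i) *
      (C a * X + C b) ^ i * (C c * X + C e) ^ (d - i) = C s * (C m * p.map ι + C n * q.map ι) →
      ∀ Z : Ω × Ω, hev d w (mob a b c e Z) =
        s * (m * hev d (p.map ι) Z + n * hev d (q.map ι) Z) := by
    intro w m n hw Z
    have hw' : hc d w (C a * X + C b) (C c * X + C e) = C s * (C m * p.map ι + C n * q.map ι) := by
      rw [← hw]
      unfold hc hev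
      apply Finset.sum_congr rfl
      intro i _
      rw [coeff_map]
    by_cases hZ : Z.2 = 0
    · have e1 : Z = (Z.1, 0) := Prod.ext rfl hZ
      have e2 := hc_coeff d 1 w (C a * X + C b) (C c * X + C e) (lin_deg a b) (lin_deg c e)
      rw [mul_one, hw'] at e2
      have e3 : (C a * X + C b : Polynomial Ω).coeff 1 = a := by simp [coeff_C]
      have e4 : (C c * X + C e : Polynomial Ω).coeff 1 = c := by simp [coeff_C]
      rw [e3, e4] at e2
      simp only [coeff_C_mul, coeff_add] at e2
      rw [e1, hev_zero, hev_zero]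
      have e5 : mob a b c e (Z.1, 0) = Z.1 • ((a, c) : Ω × Ω) := by
        unfold mob
        ext
        · simp only [Prod.smul_fst, smul_eq_mul]
          ring
        · simp only [Prod.smul_snd, smul_eq_mul]
          ring
      rw [e5, hev_smul, ← e2]
      ring
    · have e1 : Z = Z.2 • ((Z.1 / Z.2, 1) : Ω × Ω) := by
        ext
        · simp only [Prod.smul_fst, smul_eq_mul]
          field_simp
        · simp
      have e2 := congrArg (eval (Z.1 / Z.2)) hw'
      rw [hc_eval] at e2
      simp only [eval_add, eval_mul, eval_C, eval_X] at e2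
      have e3 : mob a b c e ((Z.1 / Z.2, 1) : Ω × Ω) =
          (a * (Z.1 / Z.2) + b, c * (Z.1 / Z.2) + e) := by
        unfold mob
        simp
      conv_lhs => rw [e1, mob_smul, hev_smul, e3, e2]
      conv_rhs => rw [e1, hev_smul, hev_smul, hev_one d _ (natDegree_map_le.trans hp),
        hev_one d _ (natDegree_map_le.trans hq)]
      ring
  intro Z
  unfold bF
  rw [key u a b h1 Z, key v c e h2 Z]
  unfold mob
  ext <;> simp

/-- Moving infinity out of a stable set, with the transfer of the reduction data. -/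
theorem stable_reduce {k : Type*} [Field k] [Infinite K] [Algebra k K]
    (d : ℕ) (hd : 2 ≤ d)
    (p q : Polynomial K) (hmax : max p.natDegree q.natDegree = d) (hco : IsCoprime p q)
    (P : Finset (Option K)) (hP : ∀ z ∈ P, ratP1 p q d z ∈ P) :
    ∃ (c : K) (P' : Finset K), (pc d q c).natDegree ≤ d ∧ (pc d (p - C c * q) c).natDegree = d ∧
      IsCoprime (pc d q c) (pc d (p - C c * q) c) ∧
      (∀ z ∈ P', (pc d (p - C c * q) c).eval z ≠ 0 ∧
        (pc d q c).eval z / (pc d (p - C c * q) c).eval z ∈ P') ∧
      P'.card = P.card ∧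
      (ConjConst k (pc d q c) (pc d (p - C c * q) c) d → ConjConst k p q d) := by
  classical
  have hp : p.natDegree ≤ d := by rw [← hmax]; exact le_max_left _ _
  have hq : q.natDegree ≤ d := by rw [← hmax]; exact le_max_right _ _
  have hlead : p.coeff d ≠ 0 ∨ q.coeff d ≠ 0 := by
    rcases le_total p.natDegree q.natDegree with h | h
    · right
      rw [max_eq_right h] at hmax
      rw [← hmax]
      apply leadingCoeff_ne_zero.mpr
      rintro rfl
      rw [natDegree_zero] at hmax
      omega
    · left
      rw [max_eq_left h] at hmax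
      rw [← hmax]
      apply leadingCoeff_ne_zero.mpr
      rintro rfl
      rw [natDegree_zero] at hmax
      omega
  have hX : p - X * q ≠ 0 := by
    intro h0
    have h1 : p = X * q := sub_eq_zero.mp h0
    have h2 : IsUnit q := by
      obtain ⟨a, b, hab⟩ := hco
      rw [h1] at hab
      apply IsUnit.of_mul_eq_one (a * X + b)
      rw [← hab]
      ring
    have h3 := natDegree_eq_zero_of_isUnit h2
    have h4 : p.natDegree ≤ 1 := by
      rw [h1]
      refine natDegree_mul_le.trans ?_
      rw [h3, add_zero]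
      exact natDegree_X_le
    rw [h3] at hmax
    omega
  obtain ⟨c, hc⟩ := Infinite.exists_notMem_finset
    ((P.image fun z => z.getD 0) ∪ (p - X * q).roots.toFinset)
  rw [Finset.mem_union, not_or] at hc
  have hcP : some c ∉ P := by
    intro h
    apply hc.1
    exact Finset.mem_image.mpr ⟨some c, h, rfl⟩
  have hcr : p.eval c - c * q.eval c ≠ 0 := by
    intro h
    apply hc.2
    rw [Multiset.mem_toFinset, mem_roots hX, IsRoot.def, eval_sub, eval_mul, eval_X]
    exact h
  have hpq : (p - C c * q).natDegree ≤ d :=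
    (natDegree_sub_le _ _).trans (max_le hp ((natDegree_C_mul_le _ _).trans hq))
  have hq'd : (pc d (p - C c * q) c).natDegree = d := by
    apply le_antisymm (pc_degree _ _ _)
    apply le_natDegree_of_ne_zero
    rw [pc_coeff d _ hpq, eval_sub, eval_mul, eval_C]
    exact hcr
  have hco' := pc_coprime d (by omega) p q hp hq hco hlead c
  have hinj : Set.InjOn (phc c) (P : Set (Option K)) := by
    intro z hz z' hz' h
    rcases z with _ | x
    · rcases z' with _ | x'
      · rfl
      · exfalso
        have hx' : x' ≠ c := by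
          rintro rfl
          exact hcP hz'
        have h1 : (0 : K) = (x' - c)⁻¹ := h
        exact inv_ne_zero (sub_ne_zero.mpr hx') h1.symm
    · rcases z' with _ | x'
      · exfalso
        have hx : x ≠ c := by
          rintro rfl
          exact hcP hz
        have h1 : (x - c)⁻¹ = (0 : K) := h
        exact inv_ne_zero (sub_ne_zero.mpr hx) h1
      · have h1 : (x - c)⁻¹ = (x' - c)⁻¹ := h
        have h2 := inv_injective h1
        have h3 : x = x' := sub_left_injective h2
        rw [h3]
  have hst : ∀ y ∈ P.image (phc c), (pc d (p - C c * q) c).eval y ≠ 0 ∧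
      (pc d q c).eval y / (pc d (p - C c * q) c).eval y ∈ P.image (phc c) := by
    intro y hy
    obtain ⟨z, hz, rfl⟩ := Finset.mem_image.mp hy
    have hFz := hP z hz
    rcases z with _ | x
    · have hval : phc c (none : Option K) = 0 := rfl
      rw [hval, pc_eval_zero, pc_eval_zero, coeff_sub, coeff_C_mul]
      by_cases hqd : q.coeff d = 0
      · have hpd : p.coeff d ≠ 0 := hlead.resolve_right (fun h => h hqd)
        rw [hqd, mul_zero, sub_zero, zero_div]
        rw [ratP1_none0 p q d hqd] at hFz
        exact ⟨hpd, Finset.mem_image.mpr ⟨none, hFz, rfl⟩⟩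
      · rw [ratP1_none p q d hqd] at hFz
        have h1 : p.coeff d / q.coeff d ≠ c := by
          intro h
          rw [h] at hFz
          exact hcP hFz
        have h2 : p.coeff d - c * q.coeff d ≠ 0 := by
          intro h
          apply h1
          rw [div_eq_iff hqd]
          exact sub_eq_zero.mp h
        refine ⟨h2, Finset.mem_image.mpr ⟨_, hFz, ?_⟩⟩
        show (p.coeff d / q.coeff d - c)⁻¹ = _
        rw [div_sub' hqd, inv_div, mul_comm (q.coeff d) c]
    · have hxc : x ≠ c := by
        rintro rfl
        exact hcP hz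
      have h0 : x - c ≠ 0 := sub_ne_zero.mpr hxc
      have hval : phc c (some x) = (x - c)⁻¹ := rfl
      have e1 := pc_eval_inv d q hq c x hxc
      have e2 := pc_eval_inv d (p - C c * q) hpq c x hxc
      rw [eval_sub, eval_mul, eval_C] at e2
      rw [hval]
      have hpow : (x - c) ^ d ≠ 0 := pow_ne_zero _ h0
      have hratio : (pc d q c).eval (x - c)⁻¹ / (pc d (p - C c * q) c).eval (x - c)⁻¹ =
          q.eval x / (p.eval x - c * q.eval x) := by
        have h9 : (pc d q c).eval (x - c)⁻¹ / (pc d (p - C c * q) c).eval (x - c)⁻¹ =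
            ((x - c) ^ d * (pc d q c).eval (x - c)⁻¹) /
              ((x - c) ^ d * (pc d (p - C c * q) c).eval (x - c)⁻¹) :=
          (mul_div_mul_left _ _ hpow).symm
        rw [h9, e1, e2]
      rw [hratio]
      have hne' : p.eval x - c * q.eval x ≠ 0 →
          (pc d (p - C c * q) c).eval (x - c)⁻¹ ≠ 0 := by
        intro h h'
        rw [h', mul_zero] at e2
        exact h e2.symm
      by_cases hqx : q.eval x = 0
      · have hpx : p.eval x ≠ 0 := by
          intro hpx
          obtain ⟨a, b, hab⟩ := hco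
          have := congrArg (eval x) hab
          rw [eval_add, eval_mul, eval_mul, hpx, hqx, mul_zero, mul_zero, add_zero,
            eval_one] at this
          exact zero_ne_one this
        rw [ratP1_some0 p q d x hqx] at hFz
        refine ⟨hne' (by rw [hqx, mul_zero, sub_zero]; exact hpx),
          Finset.mem_image.mpr ⟨none, hFz, ?_⟩⟩
        rw [hqx, zero_div]
        rfl
      · rw [ratP1_some p q d x hqx] at hFz
        have h1 : p.eval x / q.eval x ≠ c := by
          intro h
          rw [h] at hFz
          exact hcP hFz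
        have h2 : p.eval x - c * q.eval x ≠ 0 := by
          intro h
          apply h1
          rw [div_eq_iff hqx]
          exact sub_eq_zero.mp h
        refine ⟨hne' h2, Finset.mem_image.mpr ⟨_, hFz, ?_⟩⟩
        show (p.eval x / q.eval x - c)⁻¹ = _
        rw [div_sub' hqx, inv_div, mul_comm (q.eval x) c]
  exact ⟨c, P.image (phc c), pc_degree _ _ _, hq'd, hco', hst,
    Finset.card_image_of_injOn hinj, fun h => conj_transfer d p q hp hq c h⟩

end Pool.Agent.R829.FB
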